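import Pool.Agent.R320.PR.Nea

/-! # Blocks -/

set_option autoImplicit false

namespace Pool.Agent.R320.PR

open Filter Topology
open SG (ord NZ)
open Pool.Agent.Y743.CL (lm log_nat bigT)
open Pool.Agent.R320.CL (SS)
open Pool.Agent.R320.JL (QQ fn blk)

noncomputable section

/-- **zeros in a cell** -/
theorem blocks {k : ℕ} (σ : ℝ) (hσ : 0 < σ) : ∃ C : ℝ, 0 < C ∧ ∀ ρ : ℝ, 0 < ρ → ρ ≤ 1 → ∀ m : ℕ, 1 ≤ m →
    5 / ρ ≤ m → ∀ᶠ r : ℕ in atTop, ∀ N : ℕ, 1 ≤ N → r * Real.log r ≤ Real.log N → ∀ b : Fin k → ℕ,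
    (∀ i, b i ≤ r ∧ (r : ℝ) ^ σ ≤ b i) → (∀ i j, i ≠ j → (r : ℝ) ^ σ ≤ |(b i : ℝ) - b j|) →
    ∀ j : ℝ, ρ * m ≤ j + 1 → j + 1 ≤ m → ∀ z : Fin k → ℝ,
    (((Finset.Ioc (NZ (ord N * (j / m))) (NZ (ord N * ((j + 1) / m)))).filter
      (fun n => ∀ i, |XV r b n i - z i| ≤ 1 / m)).card : ℝ) ≤ C / (m : ℝ) ^ (k + 1) * N := by
  obtain ⟨C1, hC1, hcell⟩ := cell (k := k) σ hσ
  obtain ⟨C2, hC2, N1, hN1, hNx⟩ := Pool.Agent.R320.VQ.N_x
  refine ⟨2 * C1 * C2, by positivity, ?_⟩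
  intro ρ hρ hρ1 m hm hmρ
  have hm0 : (0 : ℝ) < m := by exact_mod_cast hm
  -- large heights
  have ev1 : ∀ᶠ x : ℝ in atTop, C2 * (x * Real.log x) ≤ (ρ / 2 * x) ^ 2 := by
    have h2 := Real.isLittleO_log_id_atTop.bound (c := (ρ / 2) ^ 2 / C2) (by positivity)
    filter_upwards [h2, eventually_ge_atTop 1] with x hx hx1
    rw [id, Real.norm_of_nonneg (Real.log_nonneg hx1), Real.norm_of_nonneg (by linarith)] at hx
    calc C2 * (x * Real.log x) ≤ C2 * (x * ((ρ / 2) ^ 2 / C2 * x)) := by gcongr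
      _ = _ := by field_simp
  have ev2 : ∀ᶠ x : ℝ in atTop, Real.log x + 20 ≤ x / (2 * m) := by
    have h2 := Real.isLittleO_log_id_atTop.bound (c := 1 / (4 * m)) (by positivity)
    filter_upwards [h2, eventually_ge_atTop (80 * (m : ℝ)), eventually_ge_atTop 1] with x hx hx1 hx2
    rw [id, Real.norm_of_nonneg (Real.log_nonneg (by linarith)), Real.norm_of_nonneg (by linarith)] at hx
    have h3 : (20 : ℝ) ≤ x / (4 * m) := by
      rw [le_div_iff₀ (by positivity)]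
      linarith
    have h4 : x / (2 * m) = 1 / (4 * m) * x + x / (4 * m) := by
      field_simp
      norm_num
    rw [h4]
    linarith
  have ev := SG.ord_tendsto.eventually ((ev1.and ev2).and ((eventually_ge_atTop (m : ℝ)).and (eventually_ge_atTop 10)))
  obtain ⟨N2, hN2⟩ := ev.exists_forall_of_atTop
  filter_upwards [hcell 2 (by norm_num) m hm (C1 / (m : ℝ) ^ (k + 1)) (by positivity),
    blk (fun _ : Fin k => (0 : ℝ)) 2 (by norm_num) (1 / (2 * m)) (by positivity), bigT 1 le_rfl (max N1 N2),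
    eventually_ge_atTop 1] with r h1 h1' h2 h3
  intro N hN hrN b hb hbb j hj1 hj2 z
  have hNr : (1 : ℝ) ≤ N := by exact_mod_cast hN
  have hNb := h2 N hNr (by rw [one_mul]; exact hrN)
  have hNN1 : N1 ≤ N := by exact_mod_cast (le_max_left _ _).trans hNb
  have hNN2 : N2 ≤ N := by exact_mod_cast (le_max_right _ _).trans hNb
  obtain ⟨hxN, hNx'⟩ := hNx N hNN1
  obtain ⟨⟨g1, g2⟩, ⟨g3, g4⟩⟩ := hN2 N hNN2
  obtain ⟨x, hx⟩ : ∃ x : ℝ, x = ord N := ⟨_, rfl⟩
  rw [← hx] at hxN hNx' g1 g2 g3 g4 ⊢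
  have hx0 : 0 < x := by linarith
  have hr0 : (0 : ℝ) < r := by exact_mod_cast h3
  have hb1 : ∀ i, 1 ≤ b i ∧ b i ≤ r := by
    intro i
    refine ⟨?_, (hb i).1⟩
    have := (Real.rpow_pos_of_pos hr0 σ).trans_le (hb i).2
    exact_mod_cast this
  have hj4 : 4 ≤ j := by
    rw [div_le_iff₀ hρ] at hmρ
    linarith
  obtain ⟨y, hy⟩ : ∃ y : ℝ, y = x / m := ⟨_, rfl⟩
  have hy1 : 1 ≤ y := by
    rw [hy, le_div_iff₀ hm0]
    linarith
  have hy2 : Real.log x + 20 ≤ y / 2 := by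
    rw [hy, div_div, mul_comm (m : ℝ) 2]
    exact g2
  have eA : x * (j / m) = y * j := by rw [hy]; ring
  have eA' : x * ((j + 1) / m) = y * (j + 1) := by rw [hy]; ring
  rw [eA, eA']
  obtain ⟨T, hT⟩ : ∃ T : ℝ, T = 2 / 3 * (y * (j + 1)) := ⟨_, rfl⟩
  have hyx : y * (j + 1) ≤ x := by
    have e1 : y * m = x := by rw [hy]; field_simp
    calc y * (j + 1) ≤ y * m := mul_le_mul_of_nonneg_left hj2 (by linarith)
      _ = x := e1
  have hT1 : 1 ≤ T := by rw [hT]; nlinarith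
  have hTx : T ≤ x := by rw [hT]; nlinarith
  have hlT : Real.log T ≤ Real.log x := Real.log_le_log (by linarith) hTx
  have hlT0 : 0 ≤ Real.log T := Real.log_nonneg hT1
  have hTρ : ρ / 2 * x ≤ T := by
    have e1 : y * m = x := by rw [hy]; field_simp
    have e2 : y * (ρ * m) ≤ y * (j + 1) := mul_le_mul_of_nonneg_left hj1 (by linarith)
    have e3 : y * (ρ * m) = ρ * x := by rw [← e1]; ring
    rw [hT]
    have e4 : 0 ≤ ρ * x := by positivity
    linarith
  have hrT : (r : ℝ) * Real.log r ≤ 2 * Real.log T := by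
    have m1 : Real.log N ≤ Real.log ((ρ / 2 * x) ^ 2) := by
      apply Real.log_le_log (by linarith)
      exact hNx'.trans g1
    rw [Real.log_pow] at m1
    have m2 : Real.log (ρ / 2 * x) ≤ Real.log T := Real.log_le_log (by positivity) hTρ
    push_cast at m1
    linarith
  have c1 : T + Real.log T + 20 ≤ y * j := by
    rw [hT] at hlT ⊢
    nlinarith
  have c2 : y * j + 1 ≤ y * (j + 1) := by linarith
  have c3 : y * (j + 1) ≤ 2 * T - Real.log T - 20 := by
    rw [hT] at hlT ⊢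
    nlinarith
  have k1 := h1 T hT1 hrT b hb hbb (y * j) (y * (j + 1)) c1 c2 c3 z
  have k2 := h1' T hT1 hrT b hb1 (y * j) (y * (j + 1)) c1 c2 c3
  have hfn : ∀ n, fn (fun _ : Fin k => (0 : ℝ)) r b n = 0 := by
    intro n
    rw [fn_XV]
    simp
  have hQQ : QQ (fun _ : Fin k => (0 : ℝ)) r b = 0 := by
    unfold QQ
    simp
  have hlx : 0 ≤ Real.log x := hlT0.trans hlT
  have hTT : T * Real.log T ≤ x * Real.log x := mul_le_mul hTx hlT hlT0 hx0.le
  have hcard : ((Finset.Ioc (NZ (y * j)) (NZ (y * (j + 1)))).card : ℝ) ≤ 1 / m * (x * Real.log x) := by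
    simp only [hfn, hQQ] at k2
    simp only [Complex.ofReal_zero, mul_zero, Complex.exp_zero, Finset.sum_const, nsmul_eq_mul, mul_one, zero_div,
      neg_zero, Real.exp_zero] at k2
    rw [← Complex.ofReal_natCast, ← Complex.ofReal_sub, Complex.norm_real, Real.norm_eq_abs] at k2
    have k3 := (abs_le.1 k2).2
    have e5 : y * (j + 1) - y * j = y := by ring
    rw [e5] at k3
    have hpi := Real.pi_gt_three
    have k4 : Real.log T / (2 * Real.pi) * y ≤ 1 / (2 * m) * (x * Real.log x) := by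
      have k5 : Real.log T / (2 * Real.pi) ≤ Real.log x / 2 := by
        rw [div_le_div_iff₀ (by positivity) (by norm_num)]
        nlinarith
      calc Real.log T / (2 * Real.pi) * y ≤ Real.log x / 2 * y := mul_le_mul_of_nonneg_right k5 (by linarith)
        _ = _ := by rw [hy]; field_simp
    have k6 : 1 / (2 * (m : ℝ)) * (T * Real.log T) ≤ 1 / (2 * m) * (x * Real.log x) :=
      mul_le_mul_of_nonneg_left hTT (by positivity)
    have k7 : 1 / (m : ℝ) * (x * Real.log x) = 1 / (2 * m) * (x * Real.log x) + 1 / (2 * m) * (x * Real.log x) := by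
      field_simp
      norm_num
    rw [k7]
    linarith
  refine k1.trans ?_
  have k8 : C1 / (m : ℝ) ^ k * ((Finset.Ioc (NZ (y * j)) (NZ (y * (j + 1)))).card : ℝ) ≤
      C1 / (m : ℝ) ^ k * (1 / m * (C2 * N)) := by
    apply mul_le_mul_of_nonneg_left _ (by positivity)
    refine hcard.trans ?_
    exact mul_le_mul_of_nonneg_left hxN (by positivity)
  have k9 : C1 / (m : ℝ) ^ (k + 1) * (T * Real.log T) ≤ C1 / (m : ℝ) ^ (k + 1) * (C2 * N) :=
    mul_le_mul_of_nonneg_left (hTT.trans hxN) (by positivity)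
  have k10 : C1 / (m : ℝ) ^ k * (1 / m * (C2 * N)) = C1 / (m : ℝ) ^ (k + 1) * (C2 * N) := by
    rw [pow_succ]
    field_simp
  rw [k10] at k8
  have k11 : 2 * C1 * C2 / (m : ℝ) ^ (k + 1) * N = C1 / (m : ℝ) ^ (k + 1) * (C2 * N) +
      C1 / (m : ℝ) ^ (k + 1) * (C2 * N) := by ring
  rw [k11]
  linarith

end

end Pool.Agent.R320.PR
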