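import Mathlib

/-! # Counting cells, affine substitution -/

set_option autoImplicit false

namespace Pool.Agent.R320.PR

open Filter Topology MeasureTheory Set

noncomputable section

/-- **cells inside a set of small measure** -/
lemma cell_count {n : ℕ} (m : ℕ) (hm : 1 ≤ m) (U : Set (Fin n → ℝ)) (η : ℝ) (hη : 0 ≤ η)
    (hU : volume U ≤ ENNReal.ofReal η) (G : Finset (Fin n → ℤ))
    (hG : ∀ g ∈ G, ∀ w : Fin n → ℝ, (∀ i, (g i : ℝ) / m ≤ w i ∧ w i < ((g i : ℝ) + 1) / m) → w ∈ U) :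
    (G.card : ℝ) ≤ η * (m : ℝ) ^ n := by
  classical
  have hm0 : (0 : ℝ) < m := by exact_mod_cast hm
  obtain ⟨Q, hQ⟩ : ∃ Q : (Fin n → ℤ) → Set (Fin n → ℝ),
      Q = fun g => Set.pi univ (fun i => Ico ((g i : ℝ) / m) (((g i : ℝ) + 1) / m)) := ⟨_, rfl⟩
  have hvol : ∀ g, volume (Q g) = ENNReal.ofReal ((1 / (m : ℝ)) ^ n) := by
    intro g
    rw [hQ]
    simp only
    rw [Real.volume_pi_Ico, ← ENNReal.ofReal_prod_of_nonneg]
    · congr 1
      rw [Finset.prod_congr rfl (g := fun _ => 1 / (m : ℝ)) (fun i _ => by ring), Finset.prod_const,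
        Finset.card_univ, Fintype.card_fin]
    · intro i _
      rw [← sub_div]
      apply div_nonneg _ hm0.le
      linarith
  have hmeas : ∀ g, MeasurableSet (Q g) := by
    intro g
    rw [hQ]
    exact MeasurableSet.univ_pi fun i => measurableSet_Ico
  have hfl : ∀ g, ∀ w ∈ Q g, ∀ i, g i = ⌊(m : ℝ) * w i⌋ := by
    intro g w hw i
    rw [hQ] at hw
    have h1 := hw i (mem_univ i)
    rw [mem_Ico, div_le_iff₀ hm0, lt_div_iff₀ hm0] at h1
    symm
    rw [Int.floor_eq_iff]
    constructor <;> linarith [h1.1, h1.2]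
  have hdisj : (G : Set (Fin n → ℤ)).PairwiseDisjoint Q := by
    intro g _ g' _ hgg
    rw [Function.onFun, Set.disjoint_left]
    intro w hw hw'
    apply hgg
    funext i
    rw [hfl g w hw i, hfl g' w hw' i]
  have h1 : volume (⋃ g ∈ G, Q g) = ∑ g ∈ G, volume (Q g) :=
    measure_biUnion_finset hdisj fun g _ => hmeas g
  have h2 : volume (⋃ g ∈ G, Q g) ≤ ENNReal.ofReal η := by
    refine (measure_mono ?_).trans hU
    intro w hw
    simp only [mem_iUnion] at hw
    obtain ⟨g, hg, hwg⟩ := hw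
    apply hG g hg
    intro i
    rw [hQ] at hwg
    exact hwg i (mem_univ i)
  rw [h1, Finset.sum_congr rfl (fun g _ => hvol g), Finset.sum_const, nsmul_eq_mul,
    ← ENNReal.ofReal_natCast, ← ENNReal.ofReal_mul (Nat.cast_nonneg _),
    ENNReal.ofReal_le_ofReal_iff hη] at h2
  rw [one_div, inv_pow, ← div_eq_mul_inv, div_le_iff₀ (by positivity)] at h2
  exact h2

/-- substitution of polynomials of degree at most one -/
lemma totalDegree_bind {n : ℕ} (f : Fin n → MvPolynomial (Fin n) ℝ) (hf : ∀ i, (f i).totalDegree ≤ 1)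
    (P : MvPolynomial (Fin n) ℝ) : (MvPolynomial.bind₁ f P).totalDegree ≤ P.totalDegree := by
  have h1 : MvPolynomial.bind₁ f P =
      ∑ s ∈ P.support, MvPolynomial.C (MvPolynomial.coeff s P) * ∏ i, f i ^ s i := by
    rw [MvPolynomial.bind₁, MvPolynomial.aeval_def, MvPolynomial.eval₂_eq']
    rfl
  rw [h1]
  apply MvPolynomial.totalDegree_finsetSum_le
  intro s hs
  refine (MvPolynomial.totalDegree_mul _ _).trans ?_
  rw [MvPolynomial.totalDegree_C, zero_add]
  refine (MvPolynomial.totalDegree_finsetProd _ _).trans ?_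
  refine le_trans (Finset.sum_le_sum fun i _ => (MvPolynomial.totalDegree_pow _ _).trans
    (Nat.mul_le_mul_left _ (hf i))) ?_
  have h2 := MvPolynomial.le_totalDegree hs
  rw [Finsupp.sum_fintype _ _ (fun _ => rfl)] at h2
  simpa using h2

/-- the affine change of variables -/
def af {k : ℕ} (x a : ℝ) (c : Fin k → ℝ) : Fin (k + 1) → MvPolynomial (Fin (k + 1)) ℝ :=
  Fin.cases (MvPolynomial.C x * MvPolynomial.X 0) (fun j =>
    MvPolynomial.C x * MvPolynomial.X 0 + (MvPolynomial.C a * MvPolynomial.X j.succ + MvPolynomial.C (c j)))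

lemma af_deg {k : ℕ} (x a : ℝ) (c : Fin k → ℝ) (i : Fin (k + 1)) : (af x a c i).totalDegree ≤ 1 := by
  have h0 : ∀ (x : ℝ) (i : Fin (k + 1)), (MvPolynomial.C x * MvPolynomial.X i :
      MvPolynomial (Fin (k + 1)) ℝ).totalDegree ≤ 1 := by
    intro x i
    refine (MvPolynomial.totalDegree_mul _ _).trans ?_
    rw [MvPolynomial.totalDegree_C, MvPolynomial.totalDegree_X]
  unfold af
  refine Fin.cases ?_ (fun j => ?_) i
  · exact h0 x 0
  · simp only [Fin.cases_succ]
    refine (MvPolynomial.totalDegree_add _ _).trans (max_le (h0 x 0) ?_)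
    refine (MvPolynomial.totalDegree_add _ _).trans (max_le (h0 a _) ?_)
    rw [MvPolynomial.totalDegree_C]
    exact Nat.zero_le _

lemma af_eval {k : ℕ} (x a : ℝ) (c : Fin k → ℝ) (P : MvPolynomial (Fin (k + 1)) ℝ) (w : Fin (k + 1) → ℝ) :
    MvPolynomial.eval w (MvPolynomial.bind₁ (af x a c) P) =
      MvPolynomial.eval (Fin.cons (x * w 0) (fun j => x * w 0 + (a * w j.succ + c j)) : Fin (k + 1) → ℝ) P := by
  have h1 : MvPolynomial.eval w (MvPolynomial.bind₁ (af x a c) P) =
      MvPolynomial.eval (fun i => MvPolynomial.eval w (af x a c i)) P :=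
    MvPolynomial.eval₂Hom_bind₁ _ _ _ _
  rw [h1]
  congr 2
  funext i
  refine Fin.cases ?_ (fun j => ?_) i
  · simp [af]
  · simp [af]

lemma af_ne {k : ℕ} (x a : ℝ) (hx : x ≠ 0) (ha : a ≠ 0) (c : Fin k → ℝ) {P : MvPolynomial (Fin (k + 1)) ℝ}
    (hP : P ≠ 0) : MvPolynomial.bind₁ (af x a c) P ≠ 0 := by
  intro h
  apply hP
  apply MvPolynomial.funext
  intro v
  rw [map_zero]
  have h1 := af_eval x a c P (Fin.cons (v 0 / x) (fun j => (v j.succ - v 0 - c j) / a))
  rw [h, map_zero] at h1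
  rw [h1]
  congr 2
  funext i
  refine Fin.cases ?_ (fun j => ?_) i
  · simp only [Fin.cons_zero]
    field_simp
  · simp only [Fin.cons_zero, Fin.cons_succ]
    field_simp
    ring

end

end Pool.Agent.R320.PR
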