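import Pool.Agent.R320.PR.Nd
import Pool.Agent.R320.JL.Blk

/-! # Points in a small cube -/

set_option autoImplicit false

namespace Pool.Agent.R320.PR

open Filter Topology
open SG (ord NZ)
open Pool.Agent.Y743.CL (lm log_nat bigT lm_nonneg)
open Pool.Agent.R320.CL (SS)
open Pool.Agent.R320.JL (ld QQ fn blk2)

noncomputable section

/-- the exponential polynomial -/
def GE (m : ℕ) (θ : ℝ) : ℂ := ∑ a : Fin m, Complex.exp (Complex.I * (((a : ℕ) : ℝ) * θ : ℝ))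

lemma GE_low {m : ℕ} (hm : 1 ≤ m) {θ : ℝ} (h : |θ| ≤ 1 / m) : (m : ℝ) / 2 ≤ ‖GE m θ‖ := by
  have hm0 : (0 : ℝ) < m := by exact_mod_cast hm
  have h1 : (m : ℝ) / 2 ≤ (GE m θ).re := by
    unfold GE
    rw [Complex.re_sum]
    have h2 : ∀ a : Fin m, (1 : ℝ) / 2 ≤ (Complex.exp (Complex.I * (((a : ℕ) : ℝ) * θ : ℝ))).re := by
      intro a
      rw [mul_comm, Complex.exp_ofReal_mul_I_re]
      have h3 := Real.one_sub_sq_div_two_le_cos (x := ((a : ℕ) : ℝ) * θ)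
      have ha : ((a : ℕ) : ℝ) ≤ m := by exact_mod_cast a.2.le
      have h4 : |((a : ℕ) : ℝ) * θ| ≤ 1 := by
        rw [abs_mul, abs_of_nonneg (Nat.cast_nonneg _)]
        calc ((a : ℕ) : ℝ) * |θ| ≤ m * (1 / m) := mul_le_mul ha h (abs_nonneg _) hm0.le
          _ = 1 := by field_simp
      have h5 : (((a : ℕ) : ℝ) * θ) ^ 2 ≤ 1 := by
        rw [← sq_abs]
        nlinarith [abs_nonneg (((a : ℕ) : ℝ) * θ)]
      linarith
    calc (m : ℝ) / 2 = ∑ _a : Fin m, (1 : ℝ) / 2 := by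
          rw [Finset.sum_const, Finset.card_univ, Fintype.card_fin, nsmul_eq_mul]; ring
      _ ≤ _ := Finset.sum_le_sum fun a _ => h2 a
  exact h1.trans (Complex.re_le_norm _)

lemma GE_prod {k m : ℕ} (θ : Fin k → ℝ) : ∏ i, GE m (θ i) =
    ∑ p : Fin k → Fin m, Complex.exp (Complex.I * ((∑ i, ((p i : ℕ) : ℝ) * θ i : ℝ) : ℂ)) := by
  unfold GE
  rw [Finset.prod_univ_sum, Fintype.piFinset_univ]
  refine Finset.sum_congr rfl fun p _ => ?_
  rw [← Complex.exp_sum]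
  congr 1
  push_cast
  rw [Finset.mul_sum]

lemma GE_conj {k m : ℕ} (θ : Fin k → ℝ) : ∏ i, (starRingEnd ℂ) (GE m (θ i)) =
    ∑ p : Fin k → Fin m, Complex.exp (-(Complex.I * ((∑ i, ((p i : ℕ) : ℝ) * θ i : ℝ) : ℂ))) := by
  rw [← map_prod, GE_prod, map_sum]
  refine Finset.sum_congr rfl fun p _ => ?_
  rw [← Complex.exp_conj, map_mul, Complex.conj_I, Complex.conj_ofReal, neg_mul]

/-- **counting by characters** -/
lemma count_char {k m : ℕ} (hm : 1 ≤ m) (S : Finset ℕ) (X : ℕ → Fin k → ℝ) (x : Fin k → ℝ) :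
    ((S.filter (fun n => ∀ i, |X n i - x i| ≤ 1 / m)).card : ℝ) * ((m : ℝ) / 2) ^ (2 * k) ≤
      ∑ p : Fin k → Fin m, ∑ q : Fin k → Fin m,
        ‖∑ n ∈ S, Complex.exp (Complex.I * ((∑ i, (((p i : ℕ) : ℝ) - ((q i : ℕ) : ℝ)) * X n i : ℝ) : ℂ))‖ := by
  classical
  have hm0 : (0 : ℝ) < m := by exact_mod_cast hm
  obtain ⟨K, hK⟩ : ∃ K : ℕ → ℝ, K = fun n => ∏ i, ‖GE m (X n i - x i)‖ ^ 2 := ⟨_, rfl⟩
  have hK0 : ∀ n, 0 ≤ K n := by
    intro n
    rw [hK]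
    exact Finset.prod_nonneg fun i _ => sq_nonneg _
  have h1 : ((S.filter (fun n => ∀ i, |X n i - x i| ≤ 1 / m)).card : ℝ) * ((m : ℝ) / 2) ^ (2 * k) ≤ ∑ n ∈ S, K n := by
    calc ((S.filter (fun n => ∀ i, |X n i - x i| ≤ 1 / m)).card : ℝ) * ((m : ℝ) / 2) ^ (2 * k) =
        ∑ _n ∈ S.filter (fun n => ∀ i, |X n i - x i| ≤ 1 / m), ((m : ℝ) / 2) ^ (2 * k) := by
          rw [Finset.sum_const, nsmul_eq_mul]
      _ ≤ ∑ n ∈ S.filter (fun n => ∀ i, |X n i - x i| ≤ 1 / m), K n := by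
          refine Finset.sum_le_sum fun n hn => ?_
          have hn' := (Finset.mem_filter.1 hn).2
          rw [hK]
          calc ((m : ℝ) / 2) ^ (2 * k) = ∏ _i : Fin k, ((m : ℝ) / 2) ^ 2 := by
                rw [Finset.prod_const, Finset.card_univ, Fintype.card_fin, ← pow_mul]
            _ ≤ _ := by
                refine Finset.prod_le_prod (fun i _ => by positivity) fun i _ => ?_
                exact pow_le_pow_left₀ (by positivity) (GE_low hm (hn' i)) 2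
      _ ≤ ∑ n ∈ S, K n := Finset.sum_le_sum_of_subset_of_nonneg (Finset.filter_subset _ _) fun n _ _ => hK0 n
  have h2 : ((∑ n ∈ S, K n : ℝ) : ℂ) = ∑ p : Fin k → Fin m, ∑ q : Fin k → Fin m,
      Complex.exp (-(Complex.I * ((∑ i, (((p i : ℕ) : ℝ) - ((q i : ℕ) : ℝ)) * x i : ℝ) : ℂ))) *
      ∑ n ∈ S, Complex.exp (Complex.I * ((∑ i, (((p i : ℕ) : ℝ) - ((q i : ℕ) : ℝ)) * X n i : ℝ) : ℂ)) := by
    push_cast
    have h3 : ∀ n, ((K n : ℝ) : ℂ) = ∑ p : Fin k → Fin m, ∑ q : Fin k → Fin m,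
        Complex.exp (-(Complex.I * ((∑ i, (((p i : ℕ) : ℝ) - ((q i : ℕ) : ℝ)) * x i : ℝ) : ℂ))) *
        Complex.exp (Complex.I * ((∑ i, (((p i : ℕ) : ℝ) - ((q i : ℕ) : ℝ)) * X n i : ℝ) : ℂ)) := by
      intro n
      rw [hK]
      push_cast
      have h4 : ∀ i, ((‖GE m (X n i - x i)‖ : ℝ) : ℂ) ^ 2 = GE m (X n i - x i) * (starRingEnd ℂ) (GE m (X n i - x i)) := by
        intro i
        rw [Complex.mul_conj, Complex.normSq_eq_norm_sq]
        push_cast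
        rfl
      simp_rw [h4]
      rw [Finset.prod_mul_distrib, GE_prod, GE_conj, Finset.sum_mul_sum]
      refine Finset.sum_congr rfl fun p _ => Finset.sum_congr rfl fun q _ => ?_
      rw [← Complex.exp_add, ← Complex.exp_add]
      congr 1
      push_cast
      simp only [sub_mul, mul_sub, Finset.sum_sub_distrib]
      ring
    simp_rw [h3]
    rw [Finset.sum_comm]
    refine Finset.sum_congr rfl fun p _ => ?_
    rw [Finset.sum_comm]
    refine Finset.sum_congr rfl fun q _ => ?_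
    rw [Finset.mul_sum]
    push_cast
    rfl
  have h5 : ∑ n ∈ S, K n = ‖((∑ n ∈ S, K n : ℝ) : ℂ)‖ := by
    rw [Complex.norm_real, Real.norm_eq_abs, abs_of_nonneg (Finset.sum_nonneg fun n _ => hK0 n)]
  refine h1.trans ?_
  rw [h5, h2]
  refine (norm_sum_le _ _).trans (Finset.sum_le_sum fun p _ => ?_)
  refine (norm_sum_le _ _).trans (Finset.sum_le_sum fun q _ => ?_)
  rw [norm_mul]
  have h6 : ‖Complex.exp (-(Complex.I * ((∑ i, (((p i : ℕ) : ℝ) - ((q i : ℕ) : ℝ)) * x i : ℝ) : ℂ)))‖ = 1 := by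
    rw [← mul_neg, ← Complex.ofReal_neg, Complex.norm_exp_I_mul_ofReal]
  rw [h6, one_mul]

/-- bounded sums -/
lemma gs_bd (s : ℝ) (hs : 0 < s) : ∃ C : ℝ, 0 < C ∧ ∀ (m : ℕ) (a : Fin m),
    ∑ q : Fin m, Real.exp (-(s * (((a : ℕ) : ℝ) - ((q : ℕ) : ℝ)) ^ 2)) ≤ C := by
  obtain ⟨f, hf⟩ : ∃ f : ℤ → ℝ, f = fun x : ℤ => Real.exp (-(s * (x : ℝ) ^ 2)) := ⟨_, rfl⟩
  have hgeo : Summable fun n : ℕ => Real.exp (-s) ^ n :=
    summable_geometric_of_lt_one (Real.exp_pos _).le (by rw [Real.exp_lt_one_iff]; linarith)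
  have hbd : ∀ n : ℕ, Real.exp (-(s * (n : ℝ) ^ 2)) ≤ Real.exp (-s) ^ n := by
    intro n
    rw [← Real.exp_nat_mul]
    apply Real.exp_le_exp.2
    have h1 : (n : ℝ) ≤ (n : ℝ) ^ 2 := by
      have : n ≤ n ^ 2 := Nat.le_self_pow (by norm_num) n
      exact_mod_cast this
    nlinarith
  have hsum : Summable f := by
    apply Summable.of_nat_of_neg
    · refine Summable.of_nonneg_of_le (fun n => by rw [hf]; exact (Real.exp_pos _).le) (fun n => ?_) hgeo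
      rw [hf]
      simpa using hbd n
    · refine Summable.of_nonneg_of_le (fun n => by rw [hf]; exact (Real.exp_pos _).le) (fun n => ?_) hgeo
      rw [hf]
      simpa using hbd n
  refine ⟨∑' x, f x + 1, ?_, fun m a => ?_⟩
  · have : 0 ≤ ∑' x, f x := tsum_nonneg fun x => by rw [hf]; exact (Real.exp_pos _).le
    linarith
  · have h2 : ∑ q : Fin m, Real.exp (-(s * (((a : ℕ) : ℝ) - ((q : ℕ) : ℝ)) ^ 2)) =
        ∑ x ∈ (Finset.univ : Finset (Fin m)).image (fun q : Fin m => ((a : ℕ) : ℤ) - ((q : ℕ) : ℤ)), f x := by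
      rw [Finset.sum_image]
      · refine Finset.sum_congr rfl fun q _ => ?_
        rw [hf]
        push_cast
        rfl
      · intro q _ q' _ hq
        simp only at hq
        apply Fin.ext
        omega
    rw [h2]
    have h3 := hsum.sum_le_tsum ((Finset.univ : Finset (Fin m)).image (fun q : Fin m => ((a : ℕ) : ℤ) - ((q : ℕ) : ℤ)))
      (fun x _ => by rw [hf]; exact (Real.exp_pos _).le)
    linarith

/-- the normalised gap sums -/
def XV {k : ℕ} (r : ℕ) (b : Fin k → ℕ) (n : ℕ) (i : Fin k) : ℝ := (SS (b i) n - b i) / lm r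

lemma fn_XV {k : ℕ} (c : Fin k → ℝ) (r : ℕ) (b : Fin k → ℕ) (n : ℕ) : fn c r b n = ∑ i, c i * XV r b n i := by
  unfold fn XV
  rw [Finset.sum_div]
  exact Finset.sum_congr rfl fun i _ => by ring

/-- **zeros with gap sums in a small cube, in a block** -/
theorem cell {k : ℕ} (σ : ℝ) (hσ : 0 < σ) : ∃ C : ℝ, 0 < C ∧ ∀ B : ℝ, 1 ≤ B → ∀ m : ℕ, 1 ≤ m → ∀ ε : ℝ, 0 < ε →
    ∀ᶠ r : ℕ in atTop, ∀ T : ℝ, 1 ≤ T → r * Real.log r ≤ B * Real.log T → ∀ b : Fin k → ℕ,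
    (∀ i, b i ≤ r ∧ (r : ℝ) ^ σ ≤ b i) → (∀ i j, i ≠ j → (r : ℝ) ^ σ ≤ |(b i : ℝ) - b j|) →
    ∀ A A' : ℝ, T + Real.log T + 20 ≤ A → A + 1 ≤ A' → A' ≤ 2 * T - Real.log T - 20 → ∀ x : Fin k → ℝ,
    (((Finset.Ioc (NZ A) (NZ A')).filter (fun n => ∀ i, |XV r b n i - x i| ≤ 1 / m)).card : ℝ) ≤
      C / (m : ℝ) ^ k * (Finset.Ioc (NZ A) (NZ A')).card + ε * (T * Real.log T) := by
  obtain ⟨C1, hC1, hsum⟩ := gs_bd (σ / 8) (by positivity)
  refine ⟨(4 * C1) ^ k, by positivity, ?_⟩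
  intro B hB m hm ε hε
  have hm0 : (0 : ℝ) < m := by exact_mod_cast hm
  have hev : ∀ᶠ r : ℕ in atTop, ∀ p q : Fin k → Fin m, ∀ T : ℝ, 1 ≤ T → r * Real.log r ≤ B * Real.log T →
      ∀ b : Fin k → ℕ, (∀ i, 1 ≤ b i ∧ b i ≤ r) → ∀ A A' : ℝ, T + Real.log T + 20 ≤ A → A + 1 ≤ A' →
      A' ≤ 2 * T - Real.log T - 20 →
      ‖∑ n ∈ Finset.Ioc (NZ A) (NZ A'), (Complex.exp (Complex.I *
        (fn (fun i => ((p i : ℕ) : ℝ) - ((q i : ℕ) : ℝ)) r b n : ℂ)) -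
        (Real.exp (-(QQ (fun i => ((p i : ℕ) : ℝ) - ((q i : ℕ) : ℝ)) r b / 2)) : ℂ))‖ ≤
        ε / 4 ^ k * (T * Real.log T) := by
    rw [eventually_all]
    intro p
    rw [eventually_all]
    intro q
    exact blk2 _ B hB (ε / 4 ^ k) (by positivity)
  filter_upwards [hev, QQ_low (k := k) σ hσ, eventually_ge_atTop 1] with r h1 h2 h3
  intro T hT hrT b hb hbb A A' hA hAA hA' x
  have hr0 : (0 : ℝ) < r := by exact_mod_cast h3
  have hb1 : ∀ i, 1 ≤ b i ∧ b i ≤ r := by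
    intro i
    refine ⟨?_, (hb i).1⟩
    have := (Real.rpow_pos_of_pos hr0 σ).trans_le (hb i).2
    exact_mod_cast this
  have hq := h2 b hb hbb
  obtain ⟨S, hS⟩ : ∃ S : Finset ℕ, S = Finset.Ioc (NZ A) (NZ A') := ⟨_, rfl⟩
  have hc := count_char hm S (XV r b) x
  rw [hS] at hc
  have hTl : 0 ≤ T * Real.log T := mul_nonneg (by linarith) (Real.log_nonneg hT)
  have key : ∀ p q : Fin k → Fin m,
      ‖∑ n ∈ Finset.Ioc (NZ A) (NZ A'), Complex.exp (Complex.I *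
        ((∑ i, (((p i : ℕ) : ℝ) - ((q i : ℕ) : ℝ)) * XV r b n i : ℝ) : ℂ))‖ ≤
      (Finset.Ioc (NZ A) (NZ A')).card * ∏ i, Real.exp (-(σ / 8 * (((p i : ℕ) : ℝ) - ((q i : ℕ) : ℝ)) ^ 2)) +
        ε / 4 ^ k * (T * Real.log T) := by
    intro p q
    have g1 := h1 p q T hT hrT b hb1 A A' hA hAA hA'
    have g2 := hq (fun i => ((p i : ℕ) : ℝ) - ((q i : ℕ) : ℝ))
    rw [Finset.sum_sub_distrib, Finset.sum_const, nsmul_eq_mul] at g1
    simp only [fn_XV] at g1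
    have g3 : ‖((Finset.Ioc (NZ A) (NZ A')).card : ℂ) *
        (Real.exp (-(QQ (fun i => ((p i : ℕ) : ℝ) - ((q i : ℕ) : ℝ)) r b / 2)) : ℂ)‖ ≤
        (Finset.Ioc (NZ A) (NZ A')).card * ∏ i, Real.exp (-(σ / 8 * (((p i : ℕ) : ℝ) - ((q i : ℕ) : ℝ)) ^ 2)) := by
      rw [norm_mul, Complex.norm_natCast, Complex.norm_real, Real.norm_eq_abs, abs_of_pos (Real.exp_pos _)]
      apply mul_le_mul_of_nonneg_left _ (Nat.cast_nonneg _)
      rw [← Real.exp_sum]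
      apply Real.exp_le_exp.2
      rw [Finset.sum_neg_distrib, ← Finset.mul_sum]
      linarith
    have g4 := norm_le_insert' (∑ n ∈ Finset.Ioc (NZ A) (NZ A'), Complex.exp (Complex.I *
        ((∑ i, (((p i : ℕ) : ℝ) - ((q i : ℕ) : ℝ)) * XV r b n i : ℝ) : ℂ)))
        (((Finset.Ioc (NZ A) (NZ A')).card : ℂ) *
        (Real.exp (-(QQ (fun i => ((p i : ℕ) : ℝ) - ((q i : ℕ) : ℝ)) r b / 2)) : ℂ))
    linarith
  have h4 : ∑ p : Fin k → Fin m, ∑ q : Fin k → Fin m,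
      ‖∑ n ∈ Finset.Ioc (NZ A) (NZ A'), Complex.exp (Complex.I *
        ((∑ i, (((p i : ℕ) : ℝ) - ((q i : ℕ) : ℝ)) * XV r b n i : ℝ) : ℂ))‖ ≤
      (Finset.Ioc (NZ A) (NZ A')).card * ((m : ℝ) ^ k * C1 ^ k) + (m : ℝ) ^ k * (m : ℝ) ^ k * (ε / 4 ^ k * (T * Real.log T)) := by
    calc _ ≤ ∑ p : Fin k → Fin m, ((Finset.Ioc (NZ A) (NZ A')).card * C1 ^ k +
          (m : ℝ) ^ k * (ε / 4 ^ k * (T * Real.log T))) := by
          refine Finset.sum_le_sum fun p _ => ?_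
          refine (Finset.sum_le_sum fun q _ => key p q).trans ?_
          rw [Finset.sum_add_distrib, Finset.sum_const, Finset.card_univ, Fintype.card_fun, Fintype.card_fin,
            Fintype.card_fin, nsmul_eq_mul, ← Finset.mul_sum]
          have e1 : ∑ q : Fin k → Fin m, ∏ i, Real.exp (-(σ / 8 * (((p i : ℕ) : ℝ) - ((q i : ℕ) : ℝ)) ^ 2)) =
              ∏ i, ∑ q : Fin m, Real.exp (-(σ / 8 * (((p i : ℕ) : ℝ) - ((q : ℕ) : ℝ)) ^ 2)) := by
            rw [Finset.prod_univ_sum, Fintype.piFinset_univ]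
          have e2 : ∏ i, ∑ q : Fin m, Real.exp (-(σ / 8 * (((p i : ℕ) : ℝ) - ((q : ℕ) : ℝ)) ^ 2)) ≤ C1 ^ k := by
            calc _ ≤ ∏ _i : Fin k, C1 := Finset.prod_le_prod
                  (fun i _ => Finset.sum_nonneg fun q _ => (Real.exp_pos _).le) fun i _ => hsum m (p i)
              _ = C1 ^ k := by rw [Finset.prod_const, Finset.card_univ, Fintype.card_fin]
          rw [e1]
          push_cast
          have e3 : ((Finset.Ioc (NZ A) (NZ A')).card : ℝ) *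
              ∏ i, ∑ q : Fin m, Real.exp (-(σ / 8 * (((p i : ℕ) : ℝ) - ((q : ℕ) : ℝ)) ^ 2)) ≤
              (Finset.Ioc (NZ A) (NZ A')).card * C1 ^ k := mul_le_mul_of_nonneg_left e2 (Nat.cast_nonneg _)
          linarith
      _ = _ := by
          rw [Finset.sum_const, Finset.card_univ, Fintype.card_fun, Fintype.card_fin,
            Fintype.card_fin, nsmul_eq_mul]
          push_cast
          ring
  have h5 := hc.trans h4
  have e5 : ((m : ℝ) / 2) ^ (2 * k) = (m : ℝ) ^ k * (m : ℝ) ^ k / 4 ^ k := by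
    rw [pow_mul, div_pow, div_pow, ← mul_pow]
    norm_num
    rw [sq]
  rw [e5, ← mul_div_assoc, div_le_iff₀ (by positivity)] at h5
  have hmk : 0 < (m : ℝ) ^ k := by positivity
  have h6 : ((Finset.Ioc (NZ A) (NZ A')).filter (fun n => ∀ i, |XV r b n i - x i| ≤ 1 / m)).card *
      ((m : ℝ) ^ k * (m : ℝ) ^ k) ≤ ((4 * C1) ^ k / (m : ℝ) ^ k * (Finset.Ioc (NZ A) (NZ A')).card +
      ε * (T * Real.log T)) * ((m : ℝ) ^ k * (m : ℝ) ^ k) := by
    refine h5.trans (le_of_eq ?_)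
    rw [mul_pow]
    field_simp
  exact le_of_mul_le_mul_right h6 (by positivity)

end

end Pool.Agent.R320.PR
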