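import Mathlib

/-! # Neighbourhoods of the zero sets of polynomials, uniformly -/

set_option autoImplicit false

namespace Pool.Agent.R320.PR

open Filter Topology MeasureTheory Set

noncomputable section

/-- The zero set of a nonzero real polynomial is a null set (after `Pool.Agent.H810R3.Tub.Poly`). -/
theorem zero_null (n : ℕ) : ∀ P : MvPolynomial (Fin n) ℝ, P ≠ 0 →
    volume {y : Fin n → ℝ | MvPolynomial.eval y P = 0} = 0 := by
  induction n with
  | zero =>
    intro P hP
    have : {y : Fin 0 → ℝ | MvPolynomial.eval y P = 0} = ∅ := by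
      ext y
      simp only [Set.mem_ofPred_eq, Set.mem_empty_iff_false, iff_false]
      intro h
      apply hP
      apply MvPolynomial.funext
      intro z
      have : z = y := Subsingleton.elim _ _
      rw [this, h, map_zero]
    rw [this, measure_empty]
  | succ n ih =>
    intro P hP
    set f := MvPolynomial.finSuccEquiv ℝ n P with hf
    have hf0 : f ≠ 0 := by
      rw [hf]; exact (map_ne_zero_iff _ (MvPolynomial.finSuccEquiv ℝ n).injective).2 hP
    obtain ⟨m, hm⟩ : ∃ m, f.coeff m ≠ 0 := by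
      by_contra hcon
      push Not at hcon
      exact hf0 (Polynomial.ext (by simpa using hcon))
    have hnull := ih (f.coeff m) hm
    set S := {y : Fin (n + 1) → ℝ | MvPolynomial.eval y P = 0} with hS
    set S' := {z : ℝ × (Fin n → ℝ) | MvPolynomial.eval (Fin.cons z.1 z.2 : Fin (n + 1) → ℝ) P = 0} with hS'
    have hcont : Continuous (fun z : ℝ × (Fin n → ℝ) =>
        MvPolynomial.eval (Fin.cons z.1 z.2 : Fin (n + 1) → ℝ) P) := by
      refine (MvPolynomial.continuous_eval P).comp ?_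
      refine continuous_pi ?_
      intro i
      refine Fin.cases ?_ (fun i => ?_) i
      · simp only [Fin.cons_zero]; fun_prop
      · simp only [Fin.cons_succ]; fun_prop
    have hmeas : MeasurableSet S' := (isClosed_singleton.preimage hcont).measurableSet
    have hpre : S = (MeasurableEquiv.piFinSuccAbove (fun _ => ℝ) 0) ⁻¹' S' := by
      ext y
      simp only [hS, hS', Set.mem_ofPred_eq, Set.mem_preimage]
      have : (Fin.cons (((MeasurableEquiv.piFinSuccAbove (fun _ => ℝ) 0) y).1)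
          (((MeasurableEquiv.piFinSuccAbove (fun _ => ℝ) 0) y).2) :
          Fin (n + 1) → ℝ) = y := by
        funext j
        refine Fin.cases ?_ (fun j => ?_) j
        · rfl
        · rfl
      rw [this]
    rw [hpre, (volume_preserving_piFinSuccAbove (fun _ => ℝ) 0).measure_preimage_equiv]
    have hswap : volume S' = (volume : Measure ((Fin n → ℝ) × ℝ)) (Prod.swap ⁻¹' S') := by
      have := (Measure.measurePreserving_swap (μ := (volume : Measure (Fin n → ℝ)))
        (ν := (volume : Measure ℝ))).measure_preimage hmeas.nullMeasurableSet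
      exact this.symm
    rw [hswap, Measure.volume_eq_prod, Measure.measure_prod_null (measurable_swap hmeas)]
    have hae : ∀ᵐ y : Fin n → ℝ, y ∉ {y : Fin n → ℝ |
        MvPolynomial.eval y (f.coeff m) = 0} := measure_eq_zero_iff_ae_notMem.1 hnull
    filter_upwards [hae] with y hy
    have hy' : MvPolynomial.eval y (f.coeff m) ≠ 0 := hy
    have hmap : f.map (MvPolynomial.eval y) ≠ 0 := by
      intro h0
      apply hy'
      have := congrArg (fun q => Polynomial.coeff q m) h0
      simpa [Polynomial.coeff_map] using this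
    have hfin : (Prod.mk y ⁻¹' (Prod.swap ⁻¹' S')).Finite := by
      refine Set.Finite.subset (Polynomial.rootSet_finite (f.map (MvPolynomial.eval y)) ℝ) ?_
      intro a ha
      rw [Polynomial.mem_rootSet]
      refine ⟨hmap, ?_⟩
      have h1 := MvPolynomial.eval_eq_eval_mv_eval' y a P
      rw [Polynomial.coe_aeval_eq_eval, ← hf] at *
      rw [← h1]
      exact ha
    exact hfin.measure_zero volume

/-- the value of the polynomial with coefficients `v` -/
def evv {n d : ℕ} (v : (Fin n → Fin (d + 1)) → ℝ) (w : Fin n → ℝ) : ℝ := ∑ α, v α * ∏ i, w i ^ (α i : ℕ)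

/-- exponents as finitely supported functions -/
def fs {n d : ℕ} (α : Fin n → Fin (d + 1)) : Fin n →₀ ℕ := Finsupp.equivFunOnFinite.symm (fun i => (α i : ℕ))

lemma fs_apply {n d : ℕ} (α : Fin n → Fin (d + 1)) (i : Fin n) : fs α i = (α i : ℕ) := rfl

lemma fs_inj {n d : ℕ} : Function.Injective (fs (n := n) (d := d)) := by
  intro α β h
  funext i
  apply Fin.ext
  have := DFunLike.congr_fun h i
  exact this

lemma evv_cont {n d : ℕ} : Continuous fun p : ((Fin n → Fin (d + 1)) → ℝ) × (Fin n → ℝ) => evv p.1 p.2 := by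
  unfold evv
  fun_prop

lemma evv_smul {n d : ℕ} (c : ℝ) (v : (Fin n → Fin (d + 1)) → ℝ) (w : Fin n → ℝ) :
    evv (c • v) w = c * evv v w := by
  unfold evv
  rw [Finset.mul_sum]
  exact Finset.sum_congr rfl fun α _ => by rw [Pi.smul_apply, smul_eq_mul]; ring

/-- the polynomial with coefficients `v` -/
def toP {n d : ℕ} (v : (Fin n → Fin (d + 1)) → ℝ) : MvPolynomial (Fin n) ℝ :=
  ∑ α, MvPolynomial.monomial (fs α) (v α)

lemma eval_toP {n d : ℕ} (v : (Fin n → Fin (d + 1)) → ℝ) (w : Fin n → ℝ) :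
    MvPolynomial.eval w (toP v) = evv v w := by
  unfold toP evv
  rw [map_sum]
  refine Finset.sum_congr rfl fun α _ => ?_
  rw [MvPolynomial.eval_monomial, Finsupp.prod_fintype _ _ (fun i => by simp)]
  rfl

lemma toP_ne {n d : ℕ} {v : (Fin n → Fin (d + 1)) → ℝ} (hv : v ≠ 0) : toP v ≠ 0 := by
  classical
  obtain ⟨α, hα⟩ : ∃ α, v α ≠ 0 := by
    by_contra hcon
    push Not at hcon
    exact hv (funext hcon)
  intro h
  apply hα
  have h1 : MvPolynomial.coeff (fs α) (toP v) = v α := by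
    unfold toP
    rw [MvPolynomial.coeff_sum, Finset.sum_eq_single α]
    · rw [MvPolynomial.coeff_monomial, if_pos rfl]
    · intro β _ hβ
      rw [MvPolynomial.coeff_monomial, if_neg (fun h => hβ (fs_inj h))]
    · intro h
      exact absurd (Finset.mem_univ α) h
  rw [← h1, h, MvPolynomial.coeff_zero]

/-- the coefficients -/
def cf {n : ℕ} (d : ℕ) (P : MvPolynomial (Fin n) ℝ) : (Fin n → Fin (d + 1)) → ℝ := fun α => P.coeff (fs α)

lemma mem_range {n d : ℕ} {P : MvPolynomial (Fin n) ℝ} (hP : P.totalDegree ≤ d) {s : Fin n →₀ ℕ}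
    (hs : s ∈ P.support) : ∃ α : Fin n → Fin (d + 1), fs α = s := by
  have h1 : ∀ i, s i ≤ d := by
    intro i
    refine le_trans ?_ hP
    refine le_trans ?_ (MvPolynomial.le_totalDegree hs)
    by_cases hi : i ∈ s.support
    · exact Finset.single_le_sum (f := fun i => s i) (fun i _ => Nat.zero_le _) hi
    · rw [Finsupp.notMem_support_iff.1 hi]
      exact Nat.zero_le _
  refine ⟨fun i => ⟨s i, by have := h1 i; omega⟩, ?_⟩
  ext i
  rw [fs_apply]

lemma eval_cf {n d : ℕ} {P : MvPolynomial (Fin n) ℝ} (hP : P.totalDegree ≤ d) (w : Fin n → ℝ) :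
    evv (cf d P) w = MvPolynomial.eval w P := by
  classical
  rw [MvPolynomial.eval_eq']
  unfold evv cf
  have e1 : ∑ α : Fin n → Fin (d + 1), P.coeff (fs α) * ∏ i, w i ^ (α i : ℕ) =
      ∑ s ∈ (Finset.univ : Finset (Fin n → Fin (d + 1))).image fs, P.coeff s * ∏ i, w i ^ s i := by
    rw [Finset.sum_image (fun α _ β _ h => fs_inj h)]
    rfl
  rw [e1]
  symm
  apply Finset.sum_subset
  · intro s hs
    obtain ⟨α, hα⟩ := mem_range hP hs
    rw [Finset.mem_image]
    exact ⟨α, Finset.mem_univ _, hα⟩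
  · intro s _ hs
    rw [MvPolynomial.notMem_support_iff.1 hs, zero_mul]

lemma cf_ne {n d : ℕ} {P : MvPolynomial (Fin n) ℝ} (hP : P.totalDegree ≤ d) (h0 : P ≠ 0) : cf d P ≠ 0 := by
  intro h
  obtain ⟨s, hs⟩ := MvPolynomial.ne_zero_iff.1 h0
  obtain ⟨α, hα⟩ := mem_range hP (MvPolynomial.mem_support_iff.2 hs)
  apply hs
  have := congrFun h α
  unfold cf at this
  rw [hα] at this
  exact this

lemma evv_diff {n d : ℕ} {K : ℝ} (hK : 1 ≤ K) (v v' : (Fin n → Fin (d + 1)) → ℝ) {w : Fin n → ℝ}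
    (hw : ∀ i, |w i| ≤ K) : |evv v w - evv v' w| ≤ Fintype.card (Fin n → Fin (d + 1)) * (K ^ d) ^ n * ‖v - v'‖ := by
  unfold evv
  rw [← Finset.sum_sub_distrib]
  refine (Finset.abs_sum_le_sum_abs _ _).trans ?_
  calc ∑ α, |v α * ∏ i, w i ^ (α i : ℕ) - v' α * ∏ i, w i ^ (α i : ℕ)| ≤
      ∑ _α : Fin n → Fin (d + 1), (K ^ d) ^ n * ‖v - v'‖ := by
        refine Finset.sum_le_sum fun α _ => ?_
        rw [← sub_mul, abs_mul, mul_comm]
        apply mul_le_mul _ _ (abs_nonneg _) (by positivity)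
        · rw [Finset.abs_prod]
          calc ∏ i, |w i ^ (α i : ℕ)| ≤ ∏ _i : Fin n, K ^ d := by
                refine Finset.prod_le_prod (fun i _ => abs_nonneg _) fun i _ => ?_
                rw [abs_pow]
                calc |w i| ^ (α i : ℕ) ≤ K ^ (α i : ℕ) := pow_le_pow_left₀ (abs_nonneg _) (hw i) _
                  _ ≤ K ^ d := pow_le_pow_right₀ hK (by have := (α i).2; omega)
            _ = _ := by rw [Finset.prod_const, Finset.card_univ, Fintype.card_fin]
        · have := norm_le_pi_norm (v - v') α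
          rw [Pi.sub_apply, Real.norm_eq_abs] at this
          exact this
    _ = _ := by rw [Finset.sum_const, Finset.card_univ, nsmul_eq_mul]; ring

/-- **small values on the sphere** -/
lemma small (n d : ℕ) (K η : ℝ) (hK : 1 ≤ K) (hη : 0 < η) : ∃ ε : ℝ, 0 < ε ∧
    ∀ v ∈ Metric.sphere (0 : (Fin n → Fin (d + 1)) → ℝ) 1,
      volume {w : Fin n → ℝ | (∀ i, |w i| ≤ K) ∧ |evv v w| ≤ ε} ≤ ENNReal.ofReal η := by
  have hcomp : IsCompact (Metric.sphere (0 : (Fin n → Fin (d + 1)) → ℝ) 1) := isCompact_sphere _ _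
  refine hcomp.induction_on (p := fun S => ∃ ε : ℝ, 0 < ε ∧ ∀ v ∈ S,
      volume {w : Fin n → ℝ | (∀ i, |w i| ≤ K) ∧ |evv v w| ≤ ε} ≤ ENNReal.ofReal η) ?_ ?_ ?_ ?_
  · exact ⟨1, one_pos, fun v hv => absurd hv (notMem_empty v)⟩
  · rintro s t hst ⟨ε, h1, h2⟩
    exact ⟨ε, h1, fun v hv => h2 v (hst hv)⟩
  · rintro s t ⟨ε, h1, h2⟩ ⟨ε', h1', h2'⟩
    refine ⟨min ε ε', lt_min h1 h1', fun v hv => ?_⟩
    rcases hv with hv | hv
    · refine (measure_mono ?_).trans (h2 v hv)
      intro w hw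
      exact ⟨hw.1, hw.2.trans (min_le_left _ _)⟩
    · refine (measure_mono ?_).trans (h2' v hv)
      intro w hw
      exact ⟨hw.1, hw.2.trans (min_le_right _ _)⟩
  · intro v hv
    have hv0 : v ≠ 0 := by
      intro h
      rw [h, mem_sphere_zero_iff_norm, norm_zero] at hv
      norm_num at hv
    -- the zero set
    obtain ⟨F, hF⟩ : ∃ F : ℕ → Set (Fin n → ℝ), F = fun j : ℕ => {w | (∀ i, |w i| ≤ K) ∧ |evv v w| ≤ 1 / ((j : ℝ) + 1)} := ⟨_, rfl⟩
    have hcv : Continuous (evv v) := evv_cont.comp (by fun_prop : Continuous fun w : Fin n → ℝ => (v, w))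
    have hFc : ∀ j, IsClosed (F j) := by
      intro j
      rw [hF]
      have e : {w : Fin n → ℝ | (∀ i, |w i| ≤ K) ∧ |evv v w| ≤ 1 / ((j : ℝ) + 1)} =
          (⋂ i, {w | |w i| ≤ K}) ∩ {w | |evv v w| ≤ 1 / ((j : ℝ) + 1)} := by
        ext w
        simp
      show IsClosed {w : Fin n → ℝ | (∀ i, |w i| ≤ K) ∧ |evv v w| ≤ 1 / ((j : ℝ) + 1)}
      rw [e]
      refine IsClosed.inter (isClosed_iInter fun i => isClosed_le ?_ continuous_const)
        (isClosed_le hcv.abs continuous_const)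
      exact (continuous_apply i).abs
    have hFfin : volume (F 0) ≠ ⊤ := by
      have hsub : F 0 ⊆ Metric.closedBall 0 K := by
        intro w hw
        rw [hF] at hw
        rw [mem_closedBall_zero_iff, pi_norm_le_iff_of_nonneg (by linarith)]
        intro i
        rw [Real.norm_eq_abs]
        exact hw.1 i
      exact ((measure_mono hsub).trans_lt measure_closedBall_lt_top).ne
    have hanti : Antitone F := by
      intro j j' hjj w hw
      rw [hF] at hw ⊢
      refine ⟨hw.1, hw.2.trans ?_⟩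
      have : (j : ℝ) ≤ j' := by exact_mod_cast hjj
      apply one_div_le_one_div_of_le (by positivity) (by linarith)
    have hlim := tendsto_measure_iInter_atTop (μ := (volume : Measure (Fin n → ℝ)))
      (fun j => (hFc j).measurableSet.nullMeasurableSet) hanti ⟨0, hFfin⟩
    have hzero : volume (⋂ j, F j) = 0 := by
      refine measure_mono_null ?_ (zero_null n (toP v) (toP_ne hv0))
      intro w hw
      rw [mem_iInter] at hw
      show MvPolynomial.eval w (toP v) = 0
      rw [eval_toP]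
      have h2 : ∀ j : ℕ, |evv v w| ≤ 1 / ((j : ℝ) + 1) := by
        intro j
        have := hw j
        rw [hF] at this
        exact this.2
      have h3 : |evv v w| ≤ 0 := ge_of_tendsto' tendsto_one_div_add_atTop_nhds_zero_nat h2
      exact abs_nonpos_iff.1 h3
    rw [hzero] at hlim
    have hev : ∀ᶠ j in atTop, volume (F j) < ENNReal.ofReal η :=
      hlim.eventually (gt_mem_nhds (ENNReal.ofReal_pos.2 hη))
    obtain ⟨j, hj⟩ := hev.exists
    obtain ⟨M, hM⟩ : ∃ M : ℝ, M = Fintype.card (Fin n → Fin (d + 1)) * (K ^ d) ^ n + 1 := ⟨_, rfl⟩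
    have hM0 : 0 < M := by rw [hM]; positivity
    have hs : 0 < 1 / (2 * ((j : ℝ) + 1)) := by positivity
    refine ⟨Metric.ball v (1 / (2 * ((j : ℝ) + 1)) / M),
      mem_nhdsWithin_of_mem_nhds (Metric.ball_mem_nhds v (by positivity)), 1 / (2 * ((j : ℝ) + 1)), hs, ?_⟩
    intro v' hv'
    refine (measure_mono ?_).trans hj.le
    intro w hw
    rw [hF]
    refine ⟨hw.1, ?_⟩
    rw [mem_ball_iff_norm] at hv'
    have h1 := evv_diff hK v v' hw.1
    have h2 : Fintype.card (Fin n → Fin (d + 1)) * (K ^ d) ^ n * ‖v - v'‖ ≤ M * ‖v' - v‖ := by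
      rw [norm_sub_rev, hM]
      have := norm_nonneg (v' - v)
      nlinarith
    have h3 : M * ‖v' - v‖ ≤ 1 / (2 * ((j : ℝ) + 1)) := by
      rw [lt_div_iff₀ hM0] at hv'
      linarith
    have h4 : |evv v w| ≤ |evv v w - evv v' w| + |evv v' w| := by
      have := abs_add_le (evv v w - evv v' w) (evv v' w)
      rw [sub_add_cancel] at this
      exact this
    have h5 : 1 / (2 * ((j : ℝ) + 1)) + 1 / (2 * ((j : ℝ) + 1)) = 1 / ((j : ℝ) + 1) := by
      field_simp
      norm_num
    have := hw.2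
    linarith

/-- **neighbourhoods of zero sets are small** -/
theorem nbhd (n d : ℕ) (K η : ℝ) (hK : 1 ≤ K) (hη : 0 < η) : ∃ m₀ : ℕ, 1 ≤ m₀ ∧ ∀ m : ℕ, m₀ ≤ m →
    ∀ P : MvPolynomial (Fin n) ℝ, P ≠ 0 → P.totalDegree ≤ d →
    volume {w : Fin n → ℝ | (∀ i, |w i| ≤ K) ∧ ∃ w' : Fin n → ℝ, (∀ i, |w i - w' i| ≤ 3 / m) ∧
      MvPolynomial.eval w' P = 0} ≤ ENNReal.ofReal η := by
  obtain ⟨ε, hε, hsm⟩ := small n d K η hK hη
  have hcomp : IsCompact (Metric.sphere (0 : (Fin n → Fin (d + 1)) → ℝ) 1 ×ˢ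
      Metric.closedBall (0 : Fin n → ℝ) (K + 3)) := (isCompact_sphere _ _).prod (isCompact_closedBall _ _)
  have huc := hcomp.uniformContinuousOn_of_continuous
    (evv_cont (n := n) (d := d)).continuousOn
  rw [Metric.uniformContinuousOn_iff] at huc
  obtain ⟨δ, hδ, h1⟩ := huc ε hε
  obtain ⟨m₀, hm₀⟩ := exists_nat_gt (3 / δ)
  refine ⟨max m₀ 1, le_max_right _ _, ?_⟩
  intro m hm P hP0 hPd
  have hm1 : (1 : ℝ) ≤ m := by exact_mod_cast (le_max_right _ _).trans hm
  have hm2 : 3 / m < δ := by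
    have : (m₀ : ℝ) ≤ m := by exact_mod_cast (le_max_left _ _).trans hm
    rw [div_lt_iff₀ (by linarith)]
    rw [div_lt_iff₀ hδ] at hm₀
    nlinarith
  have hv0 := cf_ne hPd hP0
  obtain ⟨v, hv⟩ : ∃ v : (Fin n → Fin (d + 1)) → ℝ, v = ‖cf d P‖⁻¹ • cf d P := ⟨_, rfl⟩
  have hn0 : 0 < ‖cf d P‖ := norm_pos_iff.2 hv0
  have hvS : v ∈ Metric.sphere (0 : (Fin n → Fin (d + 1)) → ℝ) 1 := by
    rw [mem_sphere_zero_iff_norm, hv, norm_smul, norm_inv, norm_norm]
    exact inv_mul_cancel₀ hn0.ne'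
  refine (measure_mono ?_).trans (hsm v hvS)
  rintro w ⟨hw, w', hww, hw'⟩
  refine ⟨hw, ?_⟩
  have h3m : 3 / (m : ℝ) ≤ 3 := by
    rw [div_le_iff₀ (by linarith)]
    linarith
  have e0 : evv v w' = 0 := by
    rw [hv, evv_smul, eval_cf hPd, hw', mul_zero]
  have hwb : w ∈ Metric.closedBall (0 : Fin n → ℝ) (K + 3) := by
    rw [mem_closedBall_zero_iff, pi_norm_le_iff_of_nonneg (by linarith)]
    intro i
    rw [Real.norm_eq_abs]
    linarith [hw i]
  have hwb' : w' ∈ Metric.closedBall (0 : Fin n → ℝ) (K + 3) := by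
    rw [mem_closedBall_zero_iff, pi_norm_le_iff_of_nonneg (by linarith)]
    intro i
    rw [Real.norm_eq_abs]
    have h4 := abs_sub_abs_le_abs_sub (w' i) (w i)
    rw [abs_sub_comm] at h4
    linarith [hw i, hww i]
  have hd : dist (v, w) (v, w') < δ := by
    rw [Prod.dist_eq, dist_self, max_lt_iff]
    refine ⟨hδ, ?_⟩
    refine lt_of_le_of_lt ?_ hm2
    rw [dist_eq_norm, pi_norm_le_iff_of_nonneg (by positivity)]
    intro i
    rw [Pi.sub_apply, Real.norm_eq_abs]
    exact hww i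
  have h5 := h1 (v, w) ⟨hvS, hwb⟩ (v, w') ⟨hvS, hwb'⟩ hd
  simp only at h5
  rw [e0, Real.dist_eq, sub_zero] at h5
  exact h5.le

end

end Pool.Agent.R320.PR
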