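import Pool.Agent.R320.PR.Blo
import Pool.Agent.R320.PR.Pol
import Pool.Agent.R320.PR.Cel

/-! # Polynomial relations between ordinates -/

set_option autoImplicit false

namespace Pool.Agent.R320.PR

open Filter Topology MeasureTheory
open SG (ord NZ)
open Pool.Agent.Y743.CL (lm log_nat bigT)
open Pool.Agent.R320.CL (SS)

noncomputable section

/-- **polynomial relations** -/
theorem main (k d : ℕ) (σ η : ℝ) (hσ : 0 < σ) (hη : 0 < η) : ∃ δ : ℝ, 0 < δ ∧ ∀ᶠ r : ℕ in atTop,
    ∀ N : ℕ, 1 ≤ N → r * Real.log r ≤ Real.log N → ∀ b : Fin k → ℕ,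
    (∀ i, b i ≤ r ∧ (r : ℝ) ^ σ ≤ b i) → (∀ i j, i ≠ j → (r : ℝ) ^ σ ≤ |(b i : ℝ) - b j|) →
    ∀ P : MvPolynomial (Fin (k + 1)) ℝ, P ≠ 0 → P.totalDegree ≤ d → ∀ E : Finset ℕ,
    (∀ n ∈ E, 1 ≤ n ∧ n ≤ N ∧ ∃ y : Fin k → ℝ, MvPolynomial.eval (Fin.cons (ord n) y : Fin (k + 1) → ℝ) P = 0 ∧
      ∀ i, |ord (n + b i) - y i| ≤ δ * (Real.sqrt (Real.log r) / Real.log (ord n))) →
    (E.card : ℝ) ≤ η * N := by
  classical
  obtain ⟨C0, hC0, hblocks⟩ := blocks (k := k) σ hσ
  obtain ⟨K, hK, htails⟩ := tails σ (η / (4 * (k + 1))) hσ (by positivity)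
  obtain ⟨C2, hC2, N1, hN1, hNx⟩ := Pool.Agent.R320.VQ.N_x
  obtain ⟨C3, T3, hC3, hT3, hup⟩ := LG.GapAux.NZ_up
  obtain ⟨η1, hη1⟩ : ∃ η1 : ℝ, η1 = η / (4 * C0) := ⟨_, rfl⟩
  have hη10 : 0 < η1 := by rw [hη1]; positivity
  obtain ⟨m₀, hm₀, hnb⟩ := nbhd (k + 1) d (K + 1) η1 (by linarith) hη10
  obtain ⟨ρ, hρ⟩ : ∃ ρ : ℝ, ρ = min 1 (η / (4 * C3 * C2)) := ⟨_, rfl⟩
  have hρ0 : 0 < ρ := by rw [hρ]; exact lt_min one_pos (by positivity)
  have hρ1 : ρ ≤ 1 := by rw [hρ]; exact min_le_left _ _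
  have hρ2 : ρ ≤ η / (4 * C3 * C2) := by rw [hρ]; exact min_le_right _ _
  obtain ⟨m, hm⟩ : ∃ m : ℕ, m = max m₀ ⌈5 / ρ⌉₊ := ⟨_, rfl⟩
  have hmm₀ : m₀ ≤ m := by rw [hm]; exact le_max_left _ _
  have hm1 : 1 ≤ m := hm₀.trans hmm₀
  have hm0 : (0 : ℝ) < m := by exact_mod_cast hm1
  have hmρ : 5 / ρ ≤ m := by
    refine (Nat.le_ceil _).trans ?_
    rw [hm]
    exact_mod_cast le_max_right _ _
  refine ⟨1 / (2 * m), by positivity, ?_⟩
  -- large heights
  have ev1 : ∀ᶠ x : ℝ in atTop, C2 * (x * Real.log x) ≤ x ^ 2 := by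
    have h2 := Real.isLittleO_log_id_atTop.bound (c := 1 / C2) (by positivity)
    filter_upwards [h2, eventually_ge_atTop 1] with x hx hx1
    rw [id, Real.norm_of_nonneg (Real.log_nonneg hx1), Real.norm_of_nonneg (by linarith)] at hx
    calc C2 * (x * Real.log x) ≤ C2 * (x * (1 / C2 * x)) := by gcongr
      _ = _ := by field_simp
  have ev := SG.ord_tendsto.eventually ((ev1.and (eventually_ge_atTop (2 * T3 / ρ))).and (eventually_ge_atTop 10))
  obtain ⟨N2, hN2⟩ := ev.exists_forall_of_atTop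
  filter_upwards [hblocks ρ hρ0 hρ1 m hm1 hmρ, htails, near K ρ hK hρ0 hρ1 m hm1, bigT 1 le_rfl (max N1 N2),
    eventually_ge_atTop 1, JL.lm_top.eventually_ge_atTop 1] with r h1 h2 h3 h4 h5 h6
  intro N hN hrN b hb hbb P hP hPd E hE
  have hNr : (1 : ℝ) ≤ N := by exact_mod_cast hN
  have hNb := h4 N hNr (by rw [one_mul]; exact hrN)
  have hNN1 : N1 ≤ N := by exact_mod_cast (le_max_left _ _).trans hNb
  have hNN2 : N2 ≤ N := by exact_mod_cast (le_max_right _ _).trans hNb
  obtain ⟨hxN, hNx'⟩ := hNx N hNN1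
  obtain ⟨⟨g1, g2⟩, g4⟩ := hN2 N hNN2
  have hbl := h1 N hN hrN b hb hbb
  obtain ⟨x, hx⟩ : ∃ x : ℝ, x = ord N := ⟨_, rfl⟩
  rw [← hx] at hxN hNx' g1 g2 g4 hbl
  have hx0 : 0 < x := by linarith
  obtain ⟨L, hL⟩ : ∃ L : ℝ, L = Real.log x := ⟨_, rfl⟩
  have hL0 : 0 < L := by rw [hL]; exact Real.log_pos (by linarith)
  have hlm0 : 0 < lm r := by linarith
  have hrL : (r : ℝ) * Real.log r ≤ 2 * Real.log x := by
    have m1 : Real.log N ≤ Real.log (x ^ 2) := Real.log_le_log (by linarith) (hNx'.trans g1)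
    rw [Real.log_pow] at m1
    push_cast at m1
    linarith
  have hpi := Real.pi_pos
  -- the polynomial
  obtain ⟨a, ha⟩ : ∃ a : ℝ, a = 2 * Real.pi * lm r / L := ⟨_, rfl⟩
  have ha0 : a ≠ 0 := by rw [ha]; positivity
  obtain ⟨c, hc⟩ : ∃ c : Fin k → ℝ, c = fun i => 2 * Real.pi * b i / L := ⟨_, rfl⟩
  obtain ⟨R, hR⟩ : ∃ R : MvPolynomial (Fin (k + 1)) ℝ, R = MvPolynomial.bind₁ (af x a c) P := ⟨_, rfl⟩
  have hR0 : R ≠ 0 := by rw [hR]; exact af_ne x a hx0.ne' ha0 c hP
  have hRd : R.totalDegree ≤ d := by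
    rw [hR]
    exact (totalDegree_bind _ (af_deg x a c) P).trans hPd
  have hvol := hnb m hmm₀ R hR0 hRd
  -- the three parts
  obtain ⟨E1, hE1⟩ : ∃ E1 : Finset ℕ, E1 = E.filter (fun n => ord n ≤ ρ * x) := ⟨_, rfl⟩
  obtain ⟨E2, hE2⟩ : ∃ E2 : Fin k → Finset ℕ, E2 = fun i => (Finset.Icc 1 N).filter
    (fun n => ¬ |(SS (b i) n - b i) / lm r| ≤ K) := ⟨_, rfl⟩
  obtain ⟨E3, hE3⟩ : ∃ E3 : Finset ℕ, E3 = E.filter (fun n => ρ * x < ord n ∧ ∀ i, |XV r b n i| ≤ K) := ⟨_, rfl⟩
  have hcov : E ⊆ E1 ∪ (Finset.univ.biUnion E2 ∪ E3) := by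
    intro n hn
    obtain ⟨hn1, hn2, -⟩ := hE n hn
    rw [Finset.mem_union, Finset.mem_union, Finset.mem_biUnion]
    by_cases c1 : ord n ≤ ρ * x
    · left
      rw [hE1, Finset.mem_filter]
      exact ⟨hn, c1⟩
    · right
      by_cases c2 : ∀ i, |XV r b n i| ≤ K
      · right
        rw [hE3, Finset.mem_filter]
        exact ⟨hn, by linarith, c2⟩
      · left
        push Not at c2
        obtain ⟨i, hi⟩ := c2
        refine ⟨i, Finset.mem_univ _, ?_⟩
        rw [hE2, Finset.mem_filter, Finset.mem_Icc]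
        exact ⟨⟨hn1, hn2⟩, not_le.2 hi⟩
  -- low part
  have hc1 : (E1.card : ℝ) ≤ η / 4 * N := by
    have a0 : E1 ⊆ Finset.Icc 1 (NZ (ρ * x)) := by
      intro n hn
      rw [hE1, Finset.mem_filter] at hn
      obtain ⟨hn1, -, -⟩ := hE n hn.1
      rw [Finset.mem_Icc]
      exact ⟨hn1, (SG.ord_le_iff hn1 _).1 hn.2⟩
    have a0' : (E1.card : ℝ) ≤ NZ (ρ * x) := by
      have := Finset.card_le_card a0
      rw [Nat.card_Icc, Nat.add_sub_cancel] at this
      exact_mod_cast this
    rw [div_le_iff₀ hρ0] at g2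
    have a1 := hup (ρ * x / 2) (by linarith)
    have e2 : 2 * (ρ * x / 2) = ρ * x := by ring
    rw [e2] at a1
    have a2 : ρ * x / 2 * Real.log (ρ * x / 2) ≤ ρ * (x * Real.log x) := by
      have b1 : Real.log (ρ * x / 2) ≤ Real.log x := Real.log_le_log (by positivity) (by nlinarith)
      have hlx : 0 ≤ Real.log x := by rw [← hL]; exact hL0.le
      calc ρ * x / 2 * Real.log (ρ * x / 2) ≤ ρ * x / 2 * Real.log x := by gcongr
        _ ≤ ρ * x * Real.log x := by
          apply mul_le_mul_of_nonneg_right _ hlx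
          have : 0 < ρ * x := by positivity
          linarith
        _ = _ := by ring
    calc (E1.card : ℝ) ≤ NZ (ρ * x) := a0'
      _ ≤ C3 * (ρ * (x * Real.log x)) := a1.trans (mul_le_mul_of_nonneg_left a2 hC3.le)
      _ ≤ C3 * (ρ * (C2 * N)) := by gcongr
      _ = (C3 * C2) * ρ * N := by ring
      _ ≤ (C3 * C2) * (η / (4 * C3 * C2)) * N := by gcongr
      _ = _ := by field_simp
  -- tails
  have hc2 : ((Finset.univ.biUnion E2).card : ℝ) ≤ η / 4 * N := by
    have a1 : ((Finset.univ.biUnion E2).card : ℝ) ≤ ∑ i : Fin k, ((E2 i).card : ℝ) := by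
      exact_mod_cast Finset.card_biUnion_le
    have a2 : ∀ i : Fin k, ((E2 i).card : ℝ) ≤ η / (4 * (k + 1)) * N := by
      intro i
      rw [hE2]
      exact h2 N hN hrN (b i) (hb i).1 (hb i).2
    calc _ ≤ _ := a1
      _ ≤ ∑ _i : Fin k, η / (4 * (k + 1)) * N := Finset.sum_le_sum fun i _ => a2 i
      _ = k * (η / (4 * (k + 1)) * N) := by
        rw [Finset.sum_const, Finset.card_univ, Fintype.card_fin, nsmul_eq_mul]
      _ ≤ (k + 1) * (η / (4 * (k + 1)) * N) := by
        apply mul_le_mul_of_nonneg_right (by linarith) (by positivity)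
      _ = _ := by field_simp
  -- main part
  obtain ⟨g, hg⟩ : ∃ g : ℕ → (Fin (k + 1) → ℤ), g = fun n => Fin.cons (⌈(m : ℝ) * (ord n / x)⌉ - 1)
    (fun i => ⌊(m : ℝ) * XV r b n i⌋) := ⟨_, rfl⟩
  have hg0 : ∀ n, g n 0 = ⌈(m : ℝ) * (ord n / x)⌉ - 1 := by intro n; rw [hg]; rfl
  have hgs : ∀ n i, g n (Fin.succ i) = ⌊(m : ℝ) * XV r b n i⌋ := by intro n i; rw [hg]; rfl
  have hc3 : (E3.card : ℝ) ≤ η / 4 * N := by
    have hG : ((E3.image g).card : ℝ) ≤ η1 * (m : ℝ) ^ (k + 1) := by
      refine cell_count m hm1 _ η1 hη10.le hvol (E3.image g) ?_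
      intro q hq w hw
      rw [Finset.mem_image] at hq
      obtain ⟨n, hn, hnq⟩ := hq
      rw [hE3, Finset.mem_filter] at hn
      obtain ⟨hnE, hn1, hn2⟩ := hn
      obtain ⟨hn3, hn4, y, hy1, hy2⟩ := hE n hnE
      have hnx : ord n ≤ x := by rw [hx]; exact SG.ord_mono hn3 hn4
      obtain ⟨τ, hτ⟩ : ∃ τ : ℝ, τ = ord n / x := ⟨_, rfl⟩
      have hτx : x * τ = ord n := by rw [hτ]; field_simp
      have hτ0 : 0 < τ := by rw [hτ]; exact div_pos (SG.ord_pos hn3) hx0
      have hτ1 : τ ≤ 1 := by rw [hτ, div_le_one hx0]; exact hnx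
      have q0 : (q 0 : ℝ) = ⌈(m : ℝ) * τ⌉ - 1 := by
        rw [← hnq, hg0, ← hτ]
        push_cast
        rfl
      have qs : ∀ i : Fin k, (q i.succ : ℝ) = ⌊(m : ℝ) * XV r b n i⌋ := by
        intro i
        rw [← hnq, hgs]
      have w0 := hw 0
      rw [q0, sub_add_cancel, div_le_iff₀ hm0, lt_div_iff₀ hm0] at w0
      have cl1 := Int.ceil_lt_add_one ((m : ℝ) * τ)
      have cl2 := Int.le_ceil ((m : ℝ) * τ)
      have cl3 : (⌈(m : ℝ) * τ⌉ : ℝ) ≤ m := by
        have : ⌈(m : ℝ) * τ⌉ ≤ (m : ℤ) := by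
          rw [Int.ceil_le]
          push_cast
          nlinarith
        exact_mod_cast this
      have cl4 : (1 : ℝ) ≤ ⌈(m : ℝ) * τ⌉ := by
        have : 0 < ⌈(m : ℝ) * τ⌉ := Int.ceil_pos.2 (by positivity)
        exact_mod_cast this
      have w0d : |w 0 - τ| ≤ 1 / m := by
        rw [abs_le, neg_le_sub_iff_le_add, sub_le_iff_le_add']
        have e1 : (1 / (m : ℝ)) * m = 1 := by field_simp
        constructor
        · apply le_of_mul_le_mul_right _ hm0
          rw [add_mul, e1]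
          linarith [w0.1]
        · apply le_of_mul_le_mul_right _ hm0
          rw [add_mul, e1]
          linarith [w0.2]
      have w0b : |w 0| ≤ 1 := by
        rw [abs_le]
        constructor
        · apply le_of_mul_le_mul_right _ hm0
          linarith [w0.1]
        · apply le_of_mul_le_mul_right _ hm0
          linarith [w0.2]
      have wsd : ∀ i : Fin k, |w i.succ - XV r b n i| ≤ 1 / m := by
        intro i
        have ws := hw i.succ
        rw [qs, div_le_iff₀ hm0, lt_div_iff₀ hm0] at ws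
        have f1 := Int.floor_le ((m : ℝ) * XV r b n i)
        have f2 := Int.lt_floor_add_one ((m : ℝ) * XV r b n i)
        rw [abs_le, neg_le_sub_iff_le_add, sub_le_iff_le_add']
        have e1 : (1 / (m : ℝ)) * m = 1 := by field_simp
        constructor
        · apply le_of_mul_le_mul_right _ hm0
          rw [add_mul, e1]
          linarith [ws.1]
        · apply le_of_mul_le_mul_right _ hm0
          rw [add_mul, e1]
          linarith [ws.2]
      have hm11 : 1 / (m : ℝ) ≤ 1 := by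
        rw [div_le_one hm0]
        exact_mod_cast hm1
      obtain ⟨z, hz⟩ : ∃ z : Fin k → ℝ, z = fun i => (Real.log x / (2 * Real.pi) * (y i - ord n) - b i) / lm r :=
        ⟨_, rfl⟩
      have hzd : ∀ i, |XV r b n i - z i| ≤ 1 / m := by
        intro i
        have := h3 x (by linarith) hrL n (b i) hn3 (hb i).1 hn1.le hnx (hn2 i) (y i) (hy2 i)
        rw [hz]
        exact this
      have he3 : 3 / (m : ℝ) = 1 / m + 1 / m + 1 / m := by ring
      refine ⟨?_, Fin.cons τ z, ?_, ?_⟩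
      · intro i
        refine Fin.cases ?_ (fun i => ?_) i
        · linarith
        · have := wsd i
          have := hn2 i
          have h7 : |w i.succ| ≤ |w i.succ - XV r b n i| + |XV r b n i| := by
            have := abs_add_le (w i.succ - XV r b n i) (XV r b n i)
            rwa [sub_add_cancel] at this
          linarith
      · intro i
        refine Fin.cases ?_ (fun i => ?_) i
        · rw [Fin.cons_zero]
          have : 0 < 1 / (m : ℝ) := by positivity
          linarith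
        · rw [Fin.cons_succ]
          have h7 : |w i.succ - z i| ≤ |w i.succ - XV r b n i| + |XV r b n i - z i| := by
            have := abs_add_le (w i.succ - XV r b n i) (XV r b n i - z i)
            rwa [sub_add_sub_cancel] at this
          have := wsd i
          have := hzd i
          have : 0 < 1 / (m : ℝ) := by positivity
          linarith
      · rw [hR, af_eval]
        rw [← hy1]
        congr 2
        funext i
        refine Fin.cases ?_ (fun i => ?_) i
        · simp only [Fin.cons_zero]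
          exact hτx
        · simp only [Fin.cons_zero, Fin.cons_succ]
          rw [hτx, ha, hc, hz, ← hL]
          field_simp
          ring
    have hfib : ∀ q ∈ E3.image g, ((E3.filter (fun n => g n = q)).card : ℝ) ≤ C0 / (m : ℝ) ^ (k + 1) * N := by
      intro q hq
      rw [Finset.mem_image] at hq
      obtain ⟨n0, hn0, hnq0⟩ := hq
      rw [hE3, Finset.mem_filter] at hn0
      obtain ⟨hnE0, hn01, hn02⟩ := hn0
      obtain ⟨hn03, hn04, -⟩ := hE n0 hnE0
      have hnx0 : ord n0 ≤ x := by rw [hx]; exact SG.ord_mono hn03 hn04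
      have q0 : (q 0 : ℝ) + 1 = ⌈(m : ℝ) * (ord n0 / x)⌉ := by
        rw [← hnq0, hg0]
        push_cast
        ring
      have j1 : ρ * m ≤ (q 0 : ℝ) + 1 := by
        rw [q0]
        refine le_trans ?_ (Int.le_ceil _)
        rw [mul_comm]
        apply mul_le_mul_of_nonneg_left _ hm0.le
        rw [le_div_iff₀ hx0]
        exact hn01.le
      have j2 : (q 0 : ℝ) + 1 ≤ m := by
        rw [q0]
        have : ⌈(m : ℝ) * (ord n0 / x)⌉ ≤ (m : ℤ) := by
          rw [Int.ceil_le]
          push_cast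
          have : ord n0 / x ≤ 1 := by rw [div_le_one hx0]; exact hnx0
          nlinarith
        exact_mod_cast this
      have h8 := hbl (q 0) j1 j2 (fun i => ((q i.succ : ℝ) + 1 / 2) / m)
      refine le_trans ?_ h8
      have hsub : E3.filter (fun n => g n = q) ⊆ (Finset.Ioc (NZ (x * ((q 0 : ℝ) / m)))
          (NZ (x * (((q 0 : ℝ) + 1) / m)))).filter
          (fun n => ∀ i, |XV r b n i - ((q i.succ : ℝ) + 1 / 2) / m| ≤ 1 / m) := by
        intro n hn
        rw [Finset.mem_filter] at hn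
        obtain ⟨hn, hnq⟩ := hn
        rw [hE3, Finset.mem_filter] at hn
        obtain ⟨hnE, hn1, hn2⟩ := hn
        obtain ⟨hn3, hn4, -⟩ := hE n hnE
        have q0' : (q 0 : ℝ) + 1 = ⌈(m : ℝ) * (ord n / x)⌉ := by
          rw [← hnq, hg0]
          push_cast
          ring
        have cl1 := Int.ceil_lt_add_one ((m : ℝ) * (ord n / x))
        have cl2 := Int.le_ceil ((m : ℝ) * (ord n / x))
        rw [← q0'] at cl1 cl2
        have e1 : (m : ℝ) * (ord n / x) = ord n * m / x := by ring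
        rw [e1] at cl1 cl2
        rw [Finset.mem_filter, Finset.mem_Ioc]
        refine ⟨⟨?_, ?_⟩, ?_⟩
        · by_contra hcon
          push Not at hcon
          have h9 := (SG.ord_le_iff hn3 _).2 hcon
          have h10 : (q 0 : ℝ) < ord n * m / x := by linarith
          rw [lt_div_iff₀ hx0] at h10
          have h11 : ord n * m ≤ x * ((q 0 : ℝ) / m) * m := mul_le_mul_of_nonneg_right h9 hm0.le
          have h12 : x * ((q 0 : ℝ) / m) * m = q 0 * x := by field_simp
          linarith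
        · apply (SG.ord_le_iff hn3 _).1
          rw [div_le_iff₀ hx0] at cl2
          have h12 : x * (((q 0 : ℝ) + 1) / m) = ((q 0 + 1) * x) / m := by ring
          rw [h12, le_div_iff₀ hm0]
          exact cl2
        · intro i
          have qs : (q i.succ : ℝ) = ⌊(m : ℝ) * XV r b n i⌋ := by rw [← hnq, hgs]
          have f1 := Int.floor_le ((m : ℝ) * XV r b n i)
          have f2 := Int.lt_floor_add_one ((m : ℝ) * XV r b n i)
          rw [← qs] at f1 f2
          have e2 : XV r b n i - ((q i.succ : ℝ) + 1 / 2) / m = ((m : ℝ) * XV r b n i - (q i.succ + 1 / 2)) / m := by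
            field_simp
          rw [e2, abs_div, abs_of_pos hm0]
          apply div_le_div_of_nonneg_right _ hm0.le
          rw [abs_le]
          constructor <;> linarith
      exact_mod_cast Finset.card_le_card hsub
    have hsum : (E3.card : ℝ) = ∑ q ∈ E3.image g, ((E3.filter (fun n => g n = q)).card : ℝ) := by
      exact_mod_cast Finset.card_eq_sum_card_image g E3
    rw [hsum]
    calc _ ≤ ∑ _q ∈ E3.image g, C0 / (m : ℝ) ^ (k + 1) * N := Finset.sum_le_sum hfib
      _ = (E3.image g).card * (C0 / (m : ℝ) ^ (k + 1) * N) := by rw [Finset.sum_const, nsmul_eq_mul]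
      _ ≤ (η1 * (m : ℝ) ^ (k + 1)) * (C0 / (m : ℝ) ^ (k + 1) * N) :=
        mul_le_mul_of_nonneg_right hG (by positivity)
      _ = η / 4 * N := by
        rw [hη1]
        field_simp
  have hcard : (E.card : ℝ) ≤ E1.card + ((Finset.univ.biUnion E2).card + E3.card) := by
    have c1 := Finset.card_le_card hcov
    have c2 := Finset.card_union_le E1 (Finset.univ.biUnion E2 ∪ E3)
    have c3 := Finset.card_union_le (Finset.univ.biUnion E2) E3
    exact_mod_cast c1.trans (c2.trans (by omega))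
  have : 0 ≤ η * N := by positivity
  linarith

end

end Pool.Agent.R320.PR
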