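import Pool.Agent.R320.JL.Leb

/-! # The quadratic form is nondegenerate for separated shifts -/

set_option autoImplicit false

namespace Pool.Agent.R320.PR

open Filter Topology
open Pool.Agent.R320.JL (ld QQ)

noncomputable section

/-- the distance of two natural numbers -/
def dd (a b : ℕ) : ℕ := max a b - min a b

lemma dd_cast (a b : ℕ) : (dd a b : ℝ) = |(a : ℝ) - b| := by
  unfold dd
  rcases le_total a b with h | h
  · have h' : (a : ℝ) ≤ b := by exact_mod_cast h
    rw [max_eq_right h, min_eq_left h, Nat.cast_sub h, abs_of_nonpos (by linarith)]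
    ring
  · have h' : (b : ℝ) ≤ a := by exact_mod_cast h
    rw [max_eq_left h, min_eq_right h, Nat.cast_sub h, abs_of_nonneg (by linarith)]

lemma dd_self (a : ℕ) : dd a a = 0 := by unfold dd; simp

lemma card_tri (a b s : ℕ) : (Finset.Ico a (a + s) ∩ Finset.Ico b (b + s)).card = s - dd a b := by
  rw [Finset.Ico_inter_Ico, Nat.card_Ico]
  unfold dd
  rcases le_total a b with h | h
  · rw [max_eq_right h, min_eq_left h, min_eq_left (by omega)]
    omega
  · rw [max_eq_left h, min_eq_right h, min_eq_right (by omega)]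
    omega

lemma tri_nonneg {ι : Type} [Fintype ι] (e : ι → ℝ) (B : ι → ℕ) (s : ℕ) :
    0 ≤ ∑ i, ∑ j, e i * e j * ((s - dd (B i) (B j) : ℕ) : ℝ) := by
  classical
  obtain ⟨M, hM⟩ : ∃ M : ℕ, ∀ i, B i + s ≤ M := by
    refine ⟨∑ i, B i + s, fun i => ?_⟩
    have := Finset.single_le_sum (f := B) (fun i _ => Nat.zero_le _) (Finset.mem_univ i)
    omega
  have key : ∑ x ∈ Finset.range M, (∑ i, e i * (if x ∈ Finset.Ico (B i) (B i + s) then (1 : ℝ) else 0)) ^ 2 =
      ∑ i, ∑ j, e i * e j * ((s - dd (B i) (B j) : ℕ) : ℝ) := by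
    have e1 : ∀ x, (∑ i, e i * (if x ∈ Finset.Ico (B i) (B i + s) then (1 : ℝ) else 0)) ^ 2 =
        ∑ i, ∑ j, e i * e j * (if x ∈ Finset.Ico (B i) (B i + s) ∩ Finset.Ico (B j) (B j + s) then (1 : ℝ)
          else 0) := by
      intro x
      rw [sq, Finset.sum_mul_sum]
      refine Finset.sum_congr rfl fun i _ => Finset.sum_congr rfl fun j _ => ?_
      by_cases h1 : x ∈ Finset.Ico (B i) (B i + s) <;> by_cases h2 : x ∈ Finset.Ico (B j) (B j + s)
      · rw [if_pos h1, if_pos h2, if_pos (Finset.mem_inter.2 ⟨h1, h2⟩)]; ring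
      · rw [if_pos h1, if_neg h2, if_neg (fun h => h2 (Finset.mem_inter.1 h).2)]; ring
      · rw [if_neg h1, if_neg (fun h => h1 (Finset.mem_inter.1 h).1)]; ring
      · rw [if_neg h1, if_neg (fun h => h1 (Finset.mem_inter.1 h).1)]; ring
    simp_rw [e1]
    rw [Finset.sum_comm]
    refine Finset.sum_congr rfl fun i _ => ?_
    rw [Finset.sum_comm]
    refine Finset.sum_congr rfl fun j _ => ?_
    rw [← Finset.mul_sum, ← card_tri, Finset.sum_ite_mem, Finset.sum_const, nsmul_eq_mul, mul_one]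
    congr 3
    rw [Finset.inter_eq_right]
    intro x hx
    rw [Finset.mem_inter, Finset.mem_Ico] at hx
    rw [Finset.mem_range]
    have := hM i
    omega
  rw [← key]
  exact Finset.sum_nonneg fun x _ => sq_nonneg _

/-- the weights -/
def ws (s : ℕ) : ℝ := 1 / (((s : ℝ) + 1) * (s + 2))

/-- the positive definite approximation of `log ((R+1)/d)`, `s` shifted by one -/
def gg (R d : ℕ) : ℝ := ∑ s ∈ Finset.range R, ws s * ((s + 1 - d : ℕ) : ℝ)

lemma ws_pos (s : ℕ) : 0 ≤ ws s := by unfold ws; positivity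

lemma log_low (x : ℝ) (hx : 0 < x) : 1 / (x + 1) ≤ Real.log (x + 1) - Real.log x := by
  rw [← Real.log_div (by positivity) hx.ne']
  have h := Real.one_sub_inv_le_log_of_pos (x := (x + 1) / x) (by positivity)
  refine le_trans (le_of_eq ?_) h
  field_simp
  ring

lemma log_up (x : ℝ) (hx : 0 < x) : Real.log (x + 1) - Real.log x ≤ 1 / x := by
  rw [← Real.log_div (by positivity) hx.ne']
  have h := Real.log_le_sub_one_of_pos (x := (x + 1) / x) (by positivity)
  refine h.trans (le_of_eq ?_)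
  field_simp
  ring

lemma gg_bd (R d : ℕ) (hd : d ≤ R) : 0 ≤ Real.log (R + 1) - Real.log d - gg R d ∧
    Real.log (R + 1) - Real.log d - gg R d ≤ 3 := by
  have h1 : gg R d = ∑ s ∈ Finset.Ico d R, ws s * ((s : ℝ) + 1 - d) := by
    unfold gg
    rw [Finset.range_eq_Ico, ← Finset.sum_Ico_consecutive _ (Nat.zero_le d) hd]
    have e1 : ∑ s ∈ Finset.Ico 0 d, ws s * ((s + 1 - d : ℕ) : ℝ) = 0 := by
      apply Finset.sum_eq_zero
      intro s hs
      rw [Finset.mem_Ico] at hs
      rw [Nat.sub_eq_zero_of_le (by omega)]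
      simp
    rw [e1, zero_add]
    refine Finset.sum_congr rfl fun s hs => ?_
    rw [Finset.mem_Ico] at hs
    rw [Nat.cast_sub (by omega)]
    push_cast
    rfl
  have h2 : ∀ n, d ≤ n → ∑ s ∈ Finset.Ico d n, ws s * ((s : ℝ) + 1 - d) ≤
      Real.log ((n : ℝ) + 1) - Real.log ((d : ℝ) + 1) := by
    intro n hn
    induction n, hn using Nat.le_induction with
    | base => simp
    | succ n hn ih =>
      rw [Finset.sum_Ico_succ_top hn]
      have h3 := log_low ((n : ℝ) + 1) (by positivity)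
      have h4 : ws n * ((n : ℝ) + 1 - d) ≤ 1 / ((n : ℝ) + 1 + 1) := by
        unfold ws
        rw [div_mul_eq_mul_div, one_mul, div_le_div_iff₀ (by positivity) (by positivity)]
        have : (0 : ℝ) ≤ d := Nat.cast_nonneg _
        have : (0 : ℝ) ≤ n := Nat.cast_nonneg _
        nlinarith
      push_cast
      linarith
  have h3 : ∀ n, d ≤ n → Real.log ((n : ℝ) + 2) - Real.log ((d : ℝ) + 2) -
      d * (1 / ((d : ℝ) + 1) - 1 / ((n : ℝ) + 1)) ≤ ∑ s ∈ Finset.Ico d n, ws s * ((s : ℝ) + 1 - d) := by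
    intro n hn
    induction n, hn using Nat.le_induction with
    | base => simp
    | succ n hn ih =>
      rw [Finset.sum_Ico_succ_top hn]
      have h3 := log_up ((n : ℝ) + 2) (by positivity)
      have e : (n : ℝ) + 2 + 1 = n + 3 := by ring
      rw [e] at h3
      have h4 : ws n * ((n : ℝ) + 1 - d) = 1 / ((n : ℝ) + 2) - d * (1 / ((n : ℝ) + 1) - 1 / ((n : ℝ) + 2)) := by
        unfold ws
        field_simp
        ring
      rw [h4]
      push_cast
      have e2 : (n : ℝ) + 1 + 2 = n + 3 := by ring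
      have e3 : (n : ℝ) + 1 + 1 = n + 2 := by ring
      rw [e2, e3]
      nlinarith
  have g2 := h2 R hd
  have g3 := h3 R hd
  rw [← h1] at g2 g3
  have hd0 : (0 : ℝ) ≤ d := Nat.cast_nonneg _
  have hR0 : (0 : ℝ) ≤ R := Nat.cast_nonneg _
  have a1 : Real.log d ≤ Real.log ((d : ℝ) + 1) := by
    rcases Nat.eq_zero_or_pos d with h | h
    · subst h; simp
    · apply Real.log_le_log (by exact_mod_cast h) (by linarith)
  have a2 : Real.log ((d : ℝ) + 2) ≤ Real.log d + 2 := by
    have hl3 : Real.log 3 ≤ 2 := by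
      rw [Real.log_le_iff_le_exp (by norm_num)]
      have := Real.add_one_le_exp (2 : ℝ)
      linarith
    rcases Nat.eq_zero_or_pos d with h | h
    · subst h
      have : Real.log 2 ≤ Real.log 3 := Real.log_le_log (by norm_num) (by norm_num)
      simp only [Nat.cast_zero, zero_add, Real.log_zero]
      linarith
    · have h' : (1 : ℝ) ≤ d := by exact_mod_cast h
      have : Real.log ((d : ℝ) + 2) ≤ Real.log (3 * d) := Real.log_le_log (by positivity) (by linarith)
      rw [Real.log_mul (by norm_num) (by positivity)] at this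
      linarith
  have a3 : Real.log ((R : ℝ) + 1) ≤ Real.log ((R : ℝ) + 2) := Real.log_le_log (by positivity) (by linarith)
  have a4 : d * (1 / ((d : ℝ) + 1) - 1 / ((R : ℝ) + 1)) ≤ 1 := by
    have b1 : d * (1 / ((d : ℝ) + 1)) ≤ 1 := by
      rw [mul_one_div, div_le_one (by positivity)]
      linarith
    have b2 : 0 ≤ d * (1 / ((R : ℝ) + 1)) := by positivity
    nlinarith
  constructor <;> linarith

/-- the lower bound for a zero sum vector -/
lemma form_low {ι : Type} [Fintype ι] (e : ι → ℝ) (B : ι → ℕ) (R m : ℕ) (hmR : m ≤ R)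
    (h0 : ∑ i, e i = 0) (hR : ∀ i j, dd (B i) (B j) ≤ R) (hm : ∀ i j, i ≠ j → m ≤ dd (B i) (B j)) :
    (Real.log (m + 2) - 1 - 3 * Fintype.card ι) * ∑ i, e i ^ 2 ≤
      - ∑ i, ∑ j, e i * e j * Real.log (dd (B i) (B j)) := by
  classical
  have hE0 : 0 ≤ ∑ i, e i ^ 2 := Finset.sum_nonneg fun i _ => sq_nonneg _
  -- the positive definite part
  have hpd : (Real.log ((m : ℝ) + 2) - 1) * ∑ i, e i ^ 2 ≤ ∑ i, ∑ j, e i * e j * gg R (dd (B i) (B j)) := by
    have e1 : ∑ i, ∑ j, e i * e j * gg R (dd (B i) (B j)) =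
        ∑ s ∈ Finset.range R, ws s * ∑ i, ∑ j, e i * e j * ((s + 1 - dd (B i) (B j) : ℕ) : ℝ) := by
      unfold gg
      simp_rw [Finset.mul_sum]
      calc ∑ i, ∑ j, ∑ s ∈ Finset.range R, e i * e j * (ws s * ((s + 1 - dd (B i) (B j) : ℕ) : ℝ)) =
          ∑ i, ∑ s ∈ Finset.range R, ∑ j, e i * e j * (ws s * ((s + 1 - dd (B i) (B j) : ℕ) : ℝ)) :=
            Finset.sum_congr rfl fun i _ => Finset.sum_comm
        _ = ∑ s ∈ Finset.range R, ∑ i, ∑ j, e i * e j * (ws s * ((s + 1 - dd (B i) (B j) : ℕ) : ℝ)) :=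
            Finset.sum_comm
        _ = _ := Finset.sum_congr rfl fun s _ => Finset.sum_congr rfl fun i _ =>
            Finset.sum_congr rfl fun j _ => by ring
    have e2 : ∀ s ∈ Finset.range m, ws s * ∑ i, ∑ j, e i * e j * ((s + 1 - dd (B i) (B j) : ℕ) : ℝ) =
        1 / ((s : ℝ) + 2) * ∑ i, e i ^ 2 := by
      intro s hs
      rw [Finset.mem_range] at hs
      have e3 : ∑ i, ∑ j, e i * e j * ((s + 1 - dd (B i) (B j) : ℕ) : ℝ) = ((s : ℝ) + 1) * ∑ i, e i ^ 2 := by
        rw [Finset.mul_sum]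
        refine Finset.sum_congr rfl fun i _ => ?_
        rw [Finset.sum_eq_single i]
        · rw [dd_self, Nat.sub_zero]
          push_cast
          ring
        · intro j _ hj
          have := hm i j hj.symm
          rw [Nat.sub_eq_zero_of_le (by omega)]
          simp
        · intro h
          exact absurd (Finset.mem_univ i) h
      rw [e3]
      unfold ws
      field_simp
    have e4 : ∑ s ∈ Finset.range m, (1 / ((s : ℝ) + 2) * ∑ i, e i ^ 2) ≤
        ∑ s ∈ Finset.range R, ws s * ∑ i, ∑ j, e i * e j * ((s + 1 - dd (B i) (B j) : ℕ) : ℝ) := by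
      rw [← Finset.sum_congr rfl e2]
      apply Finset.sum_le_sum_of_subset_of_nonneg (Finset.range_mono hmR)
      intro s _ _
      exact mul_nonneg (ws_pos s) (tri_nonneg e B (s + 1))
    rw [e1]
    refine le_trans ?_ e4
    rw [← Finset.sum_mul]
    apply mul_le_mul_of_nonneg_right _ hE0
    have e5 : ∀ n : ℕ, Real.log ((n : ℝ) + 2) - Real.log 2 ≤ ∑ s ∈ Finset.range n, 1 / ((s : ℝ) + 2) := by
      intro n
      induction n with
      | zero => simp
      | succ n ih =>
        rw [Finset.sum_range_succ]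
        have h3 := log_up ((n : ℝ) + 2) (by positivity)
        push_cast
        have e : (n : ℝ) + 1 + 2 = n + 2 + 1 := by ring
        rw [e]
        linarith
    have h2 : Real.log 2 ≤ 1 := by
      have := Real.log_two_lt_d9
      linarith
    linarith [e5 m]
  -- the difference
  have hL : ∑ i, ∑ j, e i * e j * Real.log (R + 1) = 0 := by
    have : ∑ i, ∑ j, e i * e j * Real.log (R + 1) = (∑ i, e i) * (∑ j, e j) * Real.log (R + 1) := by
      rw [Finset.sum_mul_sum, Finset.sum_mul]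
      refine Finset.sum_congr rfl fun i _ => ?_
      rw [Finset.sum_mul]
    rw [this, h0]
    ring
  have e6 : - ∑ i, ∑ j, e i * e j * Real.log (dd (B i) (B j)) =
      ∑ i, ∑ j, e i * e j * gg R (dd (B i) (B j)) +
      ∑ i, ∑ j, e i * e j * (Real.log (R + 1) - Real.log (dd (B i) (B j)) - gg R (dd (B i) (B j))) := by
    have e7 : ∑ i, ∑ j, e i * e j * (Real.log (R + 1) - Real.log (dd (B i) (B j)) - gg R (dd (B i) (B j))) =
        ∑ i, ∑ j, e i * e j * Real.log (R + 1) - ∑ i, ∑ j, e i * e j * Real.log (dd (B i) (B j)) -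
        ∑ i, ∑ j, e i * e j * gg R (dd (B i) (B j)) := by
      rw [← Finset.sum_sub_distrib, ← Finset.sum_sub_distrib]
      refine Finset.sum_congr rfl fun i _ => ?_
      rw [← Finset.sum_sub_distrib, ← Finset.sum_sub_distrib]
      refine Finset.sum_congr rfl fun j _ => ?_
      ring
    rw [e7, hL]
    ring
  have e8 : |∑ i, ∑ j, e i * e j * (Real.log (R + 1) - Real.log (dd (B i) (B j)) - gg R (dd (B i) (B j)))| ≤
      3 * Fintype.card ι * ∑ i, e i ^ 2 := by
    have a1 : |∑ i, ∑ j, e i * e j * (Real.log (R + 1) - Real.log (dd (B i) (B j)) - gg R (dd (B i) (B j)))| ≤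
        ∑ i, ∑ j, |e i| * |e j| * 3 := by
      refine (Finset.abs_sum_le_sum_abs _ _).trans (Finset.sum_le_sum fun i _ => ?_)
      refine (Finset.abs_sum_le_sum_abs _ _).trans (Finset.sum_le_sum fun j _ => ?_)
      rw [abs_mul, abs_mul]
      apply mul_le_mul_of_nonneg_left _ (by positivity)
      obtain ⟨b1, b2⟩ := gg_bd R _ (hR i j)
      rw [abs_of_nonneg b1]
      exact b2
    have a2 : ∑ i, ∑ j, |e i| * |e j| * 3 = 3 * (∑ i, |e i|) ^ 2 := by
      rw [sq, Finset.sum_mul_sum, Finset.mul_sum]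
      refine Finset.sum_congr rfl fun i _ => ?_
      rw [Finset.mul_sum]
      refine Finset.sum_congr rfl fun j _ => ?_
      ring
    have a3 : (∑ i, |e i|) ^ 2 ≤ Fintype.card ι * ∑ i, e i ^ 2 := by
      have := sq_sum_le_card_mul_sum_sq (s := (Finset.univ : Finset ι)) (f := fun i => |e i|)
      simp only [sq_abs, Finset.card_univ] at this
      exact this
    rw [a2] at a1
    refine a1.trans ?_
    rw [mul_assoc]
    linarith
  rw [e6]
  have e9 := (abs_le.1 e8).1
  have e10 : (Real.log (m + 2) - 1 - 3 * Fintype.card ι) * ∑ i, e i ^ 2 =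
      (Real.log ((m : ℝ) + 2) - 1) * ∑ i, e i ^ 2 - 3 * Fintype.card ι * ∑ i, e i ^ 2 := by ring
  rw [e10]
  linarith

/-- **nondegeneracy** -/
lemma QQ_low {k : ℕ} (σ : ℝ) (hσ : 0 < σ) : ∀ᶠ r : ℕ in atTop, ∀ b : Fin k → ℕ,
    (∀ i, b i ≤ r ∧ (r : ℝ) ^ σ ≤ b i) → (∀ i j, i ≠ j → (r : ℝ) ^ σ ≤ |(b i : ℝ) - b j|) →
    ∀ c : Fin k → ℝ, σ / 4 * ∑ i, c i ^ 2 ≤ QQ c r b := by
  have hlog : Tendsto (fun r : ℕ => Real.log r) atTop atTop :=
    Real.tendsto_log_atTop.comp tendsto_natCast_atTop_atTop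
  filter_upwards [hlog.eventually_ge_atTop ((1 + 3 * ((k : ℝ) + 1)) / (σ / 2)), hlog.eventually_ge_atTop 1,
    eventually_ge_atTop 1] with r h1 h2 h3
  intro b hb hbb c
  have hr0 : (0 : ℝ) < r := by exact_mod_cast h3
  obtain ⟨m, hm⟩ : ∃ m : ℕ, m = ⌊(r : ℝ) ^ σ⌋₊ := ⟨_, rfl⟩
  have hrσ : 0 ≤ (r : ℝ) ^ σ := by positivity
  have hm1 : (m : ℝ) ≤ (r : ℝ) ^ σ := by rw [hm]; exact Nat.floor_le hrσ
  have hm2 : (r : ℝ) ^ σ ≤ (m : ℝ) + 2 := by
    have := Nat.lt_floor_add_one ((r : ℝ) ^ σ)
    rw [← hm] at this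
    linarith
  rcases Nat.eq_zero_or_pos k with hk | hk
  · subst hk
    unfold QQ
    simp
  have i0 : Fin k := ⟨0, hk⟩
  obtain ⟨e, he⟩ : ∃ e : Option (Fin k) → ℝ, e = fun o => o.elim (-∑ i, c i) c := ⟨_, rfl⟩
  obtain ⟨B, hB⟩ : ∃ B : Option (Fin k) → ℕ, B = fun o => o.elim 0 b := ⟨_, rfl⟩
  have hB0 : B none = 0 := by rw [hB]; rfl
  have hBs : ∀ i, B (some i) = b i := by intro i; rw [hB]; rfl
  have he0 : e none = -∑ i, c i := by rw [he]; rfl
  have hes : ∀ i, e (some i) = c i := by intro i; rw [he]; rfl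
  have hBr : ∀ o, B o ≤ r := by
    intro o
    cases o with
    | none => rw [hB0]; omega
    | some i => rw [hBs]; exact (hb i).1
  have hmr : m ≤ r := by
    have : (m : ℝ) ≤ b i0 := hm1.trans (hb i0).2
    have h' : m ≤ b i0 := by exact_mod_cast this
    exact h'.trans (hb i0).1
  have hmul : ∀ x : ℕ, (r : ℝ) ^ σ ≤ x → m ≤ x := by
    intro x hx
    exact_mod_cast hm1.trans hx
  have key := form_low e B r m hmr (by rw [Fintype.sum_option, he0]; simp only [hes]; ring) (by
      intro o o'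
      have := hBr o
      have := hBr o'
      unfold dd
      omega) (by
      intro o o' hoo
      apply hmul
      rw [dd_cast]
      cases o with
      | none =>
        cases o' with
        | none => exact absurd rfl hoo
        | some j =>
          rw [hB0, hBs, Nat.cast_zero, zero_sub, abs_neg, abs_of_nonneg (Nat.cast_nonneg _)]
          exact (hb j).2
      | some i =>
        cases o' with
        | none =>
          rw [hB0, hBs, Nat.cast_zero, sub_zero, abs_of_nonneg (Nat.cast_nonneg _)]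
          exact (hb i).2
        | some j =>
          rw [hBs, hBs]
          exact hbb i j (fun h => hoo (by rw [h])))
  have hcard : (Fintype.card (Option (Fin k)) : ℝ) = k + 1 := by
    rw [Fintype.card_option, Fintype.card_fin]
    push_cast
    ring
  rw [hcard] at key
  -- the right side
  have hrhs : - ∑ o, ∑ o', e o * e o' * Real.log (dd (B o) (B o')) = 2 * Real.log r * QQ c r b := by
    rw [Fintype.sum_option]
    simp only [Fintype.sum_option, hes, hBs, hB0, he0]
    rw [dd_self]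
    have c1 : ∀ i, (dd 0 (b i) : ℝ) = b i := by
      intro i
      rw [dd_cast, Nat.cast_zero, zero_sub, abs_neg, abs_of_nonneg (Nat.cast_nonneg _)]
    have c2 : ∀ i, (dd (b i) 0 : ℝ) = b i := by
      intro i
      rw [dd_cast, Nat.cast_zero, sub_zero, abs_of_nonneg (Nat.cast_nonneg _)]
    simp only [c1, c2, dd_cast, Nat.cast_zero, Real.log_zero, mul_zero, zero_add]
    rw [Finset.sum_add_distrib]
    have hne : (2 * Real.log r) ≠ 0 := by linarith
    have hQ : 2 * Real.log r * QQ c r b = ∑ i, ∑ j, c i * c j * (Real.log (b i) + Real.log (b j) - ld (b i) (b j)) := by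
      unfold QQ
      rw [Finset.mul_sum]
      refine Finset.sum_congr rfl fun i _ => ?_
      rw [Finset.mul_sum]
      refine Finset.sum_congr rfl fun j _ => ?_
      field_simp
    rw [hQ]
    have d1 : ∑ i, (-∑ i, c i) * c i * Real.log (b i) = - ((∑ i, c i) * ∑ i, c i * Real.log (b i)) := by
      rw [neg_mul_eq_neg_mul, Finset.mul_sum]
      exact Finset.sum_congr rfl fun i _ => by ring
    have d2 : ∑ i, c i * (-∑ i, c i) * Real.log (b i) = - ((∑ i, c i) * ∑ i, c i * Real.log (b i)) := by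
      rw [neg_mul_eq_neg_mul, Finset.mul_sum]
      exact Finset.sum_congr rfl fun i _ => by ring
    have d3 : ∑ i, ∑ j, c i * c j * (Real.log (b i) + Real.log (b j) - ld (b i) (b j)) =
        2 * ((∑ i, c i) * ∑ i, c i * Real.log (b i)) - ∑ i, ∑ j, c i * c j * ld (b i) (b j) := by
      have f1 : ∑ i, ∑ j, c i * c j * Real.log (b i) = (∑ i, c i) * ∑ i, c i * Real.log (b i) := by
        rw [mul_comm (∑ i, c i), Finset.sum_mul_sum]
        exact Finset.sum_congr rfl fun i _ => Finset.sum_congr rfl fun j _ => by ring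
      have f2 : ∑ i, ∑ j, c i * c j * Real.log (b j) = (∑ i, c i) * ∑ i, c i * Real.log (b i) := by
        rw [Finset.sum_mul_sum]
        exact Finset.sum_congr rfl fun i _ => Finset.sum_congr rfl fun j _ => by ring
      have f3 : ∑ i, ∑ j, c i * c j * (Real.log (b i) + Real.log (b j) - ld (b i) (b j)) =
          ∑ i, ∑ j, c i * c j * Real.log (b i) + ∑ i, ∑ j, c i * c j * Real.log (b j) -
          ∑ i, ∑ j, c i * c j * ld (b i) (b j) := by
        rw [← Finset.sum_add_distrib, ← Finset.sum_sub_distrib]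
        refine Finset.sum_congr rfl fun i _ => ?_
        rw [← Finset.sum_add_distrib, ← Finset.sum_sub_distrib]
        exact Finset.sum_congr rfl fun j _ => by ring
      rw [f3, f1, f2]
      ring
    rw [d1, d2, d3]
    unfold ld
    ring
  rw [hrhs] at key
  have hσr : σ * Real.log r ≤ Real.log ((m : ℝ) + 2) := by
    rw [← Real.log_rpow hr0]
    exact Real.log_le_log (by positivity) hm2
  rw [div_le_iff₀ (by positivity)] at h1
  have hS : ∑ i, c i ^ 2 ≤ ∑ o, e o ^ 2 := by
    rw [Fintype.sum_option]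
    simp only [hes]
    have := sq_nonneg (e none)
    linarith
  have hS0 : 0 ≤ ∑ i, c i ^ 2 := Finset.sum_nonneg fun i _ => sq_nonneg _
  have g1 : σ / 2 * Real.log r ≤ Real.log (m + 2) - 1 - 3 * ((k : ℝ) + 1) := by linarith
  have g2 : σ / 2 * Real.log r * ∑ i, c i ^ 2 ≤ 2 * Real.log r * QQ c r b := by
    refine le_trans ?_ key
    apply mul_le_mul g1 hS hS0
    have : 0 ≤ σ / 2 * Real.log r := by positivity
    linarith
  have g3 : 2 * Real.log r * (σ / 4 * ∑ i, c i ^ 2) ≤ 2 * Real.log r * QQ c r b := by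
    refine le_trans (le_of_eq ?_) g2
    ring
  exact le_of_mul_le_mul_left g3 (by linarith)

end

end Pool.Agent.R320.PR
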