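import Pool.Agent.R320.PR.Ker
import Pool.Agent.R320.VQ.TailN
import Pool.Agent.Y743.NC.Block

/-! # From gap sums to ordinates, tails -/

set_option autoImplicit false

namespace Pool.Agent.R320.PR

open Filter Topology
open SG (ord NZ)
open Pool.Agent.Y743.CL (lm log_nat bigT lm_nonneg Ph gs gs_bot gs_top gs_compl)
open Pool.Agent.R320.CL (SS dl Ss SS_ge)

noncomputable section

lemma SS_up {r n : ℕ} (hn : 1 ≤ n) :
    SS r n ≤ (ord (n + r) - ord n) / (2 * Real.pi) * Real.log (ord (n + r) / (2 * Real.pi)) := by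
  have hpi := Real.pi_pos
  have h4 : ∀ i ∈ Finset.range r, dl (n + i) ≤ (ord (n + (i + 1)) - ord (n + i)) / (2 * Real.pi) *
      Real.log (ord (n + r) / (2 * Real.pi)) := by
    intro i hi
    rw [Finset.mem_range] at hi
    show (ord (n + i + 1) - ord (n + i)) / (2 * Real.pi) *
      Real.log (ord (n + i) / (2 * Real.pi)) ≤ _
    rw [show n + (i + 1) = n + i + 1 by ring]
    have hp0 : 0 < ord (n + i) := SG.ord_pos (by omega)
    apply mul_le_mul_of_nonneg_left
    · apply Real.log_le_log (by positivity)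
      apply div_le_div_of_nonneg_right _ (by positivity)
      exact SG.ord_mono (by omega) (by omega)
    · apply div_nonneg _ (by positivity)
      have := SG.ord_mono (show 1 ≤ n + i by omega) (show n + i ≤ n + i + 1 by omega)
      linarith
  calc SS r n ≤ ∑ i ∈ Finset.range r, (ord (n + (i + 1)) - ord (n + i)) / (2 * Real.pi) *
        Real.log (ord (n + r) / (2 * Real.pi)) := Finset.sum_le_sum h4
    _ = _ := by
        rw [← Finset.sum_mul, ← Finset.sum_div,
          Finset.sum_range_sub (fun i => ord (n + i)) r, add_zero]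

/-- **approximate ordinates give approximate gap sums** -/
lemma near (K ρ : ℝ) (hK : 1 ≤ K) (hρ : 0 < ρ) (hρ1 : ρ ≤ 1) (m : ℕ) (hm : 1 ≤ m) :
    ∀ᶠ r : ℕ in atTop, ∀ x : ℝ, 1 ≤ x → r * Real.log r ≤ 2 * Real.log x → ∀ n b : ℕ, 1 ≤ n → b ≤ r →
    ρ * x ≤ ord n → ord n ≤ x → |(SS b n - b) / lm r| ≤ K → ∀ y : ℝ,
    |ord (n + b) - y| ≤ 1 / (2 * m) * (Real.sqrt (Real.log r) / Real.log (ord n)) →
    |(SS b n - b) / lm r - (Real.log x / (2 * Real.pi) * (y - ord n) - b) / lm r| ≤ 1 / m := by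
  have hpi := Real.pi_gt_three
  have hm0 : (0 : ℝ) < m := by exact_mod_cast hm
  obtain ⟨q, hq⟩ : ∃ q : ℝ, q = Real.log (2 * Real.pi / ρ) := ⟨_, rfl⟩
  have hq0 : 0 ≤ q := by
    rw [hq]
    apply Real.log_nonneg
    rw [le_div_iff₀ hρ]
    linarith
  filter_upwards [log_nat.eventually_ge_atTop (8 * Real.pi * (K + 1)), log_nat.eventually_ge_atTop
      (8 * (K + 1) * q * m), JL.lm_top.eventually_ge_atTop 1, JL.lm_le 1 0, eventually_ge_atTop 1,
      (tendsto_natCast_atTop_atTop (R := ℝ)).eventually_ge_atTop (4 * q + 4)] with r h1 h2 h3 h4 h5 h6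
  intro x hx hrx n b hn hb hρn hnx hX y hy
  obtain ⟨L, hL⟩ : ∃ L : ℝ, L = Real.log x := ⟨_, rfl⟩
  rw [← hL] at hrx ⊢
  have hr1 : (1 : ℝ) ≤ r := by exact_mod_cast h5
  have hr0 : (0 : ℝ) < r := by linarith
  obtain ⟨l, hl⟩ : ∃ l : ℝ, l = Real.log r := ⟨_, rfl⟩
  rw [← hl] at h1 h2 hrx
  have hl1 : 1 ≤ l := by nlinarith
  have hL2 : 2 * q + 2 ≤ L := by nlinarith
  have hx0 : 0 < x := by linarith
  have hon : 0 < ord n := SG.ord_pos hn
  obtain ⟨D, hD⟩ : ∃ D : ℝ, D = ord (n + b) - ord n := ⟨_, rfl⟩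
  have hD0 : 0 ≤ D := by
    rw [hD]
    have := SG.ord_mono hn (show n ≤ n + b by omega)
    linarith
  have hlow : L - q ≤ Real.log (ord n / (2 * Real.pi)) := by
    rw [hL, hq, ← Real.log_div (by positivity) (by positivity)]
    apply Real.log_le_log (by positivity)
    rw [div_div_eq_mul_div]
    apply div_le_div_of_nonneg_right _ (by positivity)
    linarith
  have hLn : L / 2 ≤ Real.log (ord n) := by
    have : Real.log (ord n / (2 * Real.pi)) ≤ Real.log (ord n) := by
      apply Real.log_le_log (by positivity)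
      rw [div_le_iff₀ (by positivity)]
      nlinarith
    linarith
  have hlm0 : 0 < lm r := by linarith
  have hS : SS b n ≤ b + K * lm r := by
    have := (abs_le.1 hX).2
    rw [div_le_iff₀ hlm0] at this
    linarith
  have hbr : (b : ℝ) ≤ r := by exact_mod_cast hb
  have hS1 := SS_ge (r := b) hn
  rw [← hD] at hS1
  have hD1 : D * L ≤ 4 * Real.pi * (K + 1) * r := by
    have g1 : D / (2 * Real.pi) * (L / 2) ≤ D / (2 * Real.pi) * Real.log (ord n / (2 * Real.pi)) :=
      mul_le_mul_of_nonneg_left (by linarith) (by positivity)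
    have g2 : D / (2 * Real.pi) * (L / 2) ≤ (K + 1) * r := by nlinarith
    have g3 : D / (2 * Real.pi) * (L / 2) = D * L / (4 * Real.pi) := by
      field_simp
      ring
    rw [g3, div_le_iff₀ (by positivity)] at g2
    linarith
  have hD2 : D * l ≤ 8 * Real.pi * (K + 1) := by
    have g1 : D * (r * l) ≤ D * (2 * L) := mul_le_mul_of_nonneg_left hrx hD0
    have g2 : (D * l) * r ≤ (8 * Real.pi * (K + 1)) * r := by linarith
    exact le_of_mul_le_mul_right g2 hr0
  have hD3 : D ≤ 1 := by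
    have h7 : D * l ≤ 1 * l := by linarith
    exact le_of_mul_le_mul_right h7 (by linarith)
  have hS2 := SS_up (r := b) hn
  rw [← hD] at hS2
  have hup : Real.log (ord (n + b) / (2 * Real.pi)) ≤ L := by
    have g1 : 0 < ord (n + b) := SG.ord_pos (by omega)
    rw [hL]
    apply Real.log_le_log (by positivity)
    rw [div_le_iff₀ (by positivity)]
    have : ord (n + b) = ord n + D := by rw [hD]; ring
    rw [this]
    nlinarith
  have hS3 : |SS b n - L / (2 * Real.pi) * D| ≤ D * q / (2 * Real.pi) := by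
    have g1 : D / (2 * Real.pi) * (L - q) ≤ SS b n :=
      (mul_le_mul_of_nonneg_left hlow (by positivity)).trans hS1
    have g2 : SS b n ≤ D / (2 * Real.pi) * L := hS2.trans (mul_le_mul_of_nonneg_left hup (by positivity))
    have g3 : D / (2 * Real.pi) * (L - q) = L / (2 * Real.pi) * D - D * q / (2 * Real.pi) := by ring
    have g4 : D / (2 * Real.pi) * L = L / (2 * Real.pi) * D := by ring
    have g5 : 0 ≤ D * q / (2 * Real.pi) := by positivity
    rw [abs_le]
    constructor <;> linarith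
  have hy2 : |L / (2 * Real.pi) * D - L / (2 * Real.pi) * (y - ord n)| ≤ lm r / (2 * m) := by
    have g1 : L / (2 * Real.pi) * D - L / (2 * Real.pi) * (y - ord n) = L / (2 * Real.pi) * (ord (n + b) - y) := by
      rw [hD]; ring
    have hL0 : 0 < L := by linarith
    rw [g1, abs_mul, abs_of_nonneg (by positivity)]
    have g2 : Real.sqrt (Real.log r) / Real.log (ord n) ≤ Real.sqrt (Real.log r) / (L / 2) :=
      div_le_div_of_nonneg_left (Real.sqrt_nonneg _) (by linarith) hLn
    calc L / (2 * Real.pi) * |ord (n + b) - y| ≤ L / (2 * Real.pi) * (1 / (2 * m) * (Real.sqrt (Real.log r) / (L / 2))) := by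
          apply mul_le_mul_of_nonneg_left _ (by positivity)
          exact hy.trans (mul_le_mul_of_nonneg_left g2 (by positivity))
      _ = _ := by
          unfold lm
          field_simp
  have hfin : |SS b n - b - (L / (2 * Real.pi) * (y - ord n) - b)| ≤ lm r / m := by
    have g1 : SS b n - b - (L / (2 * Real.pi) * (y - ord n) - b) = (SS b n - L / (2 * Real.pi) * D) +
        (L / (2 * Real.pi) * D - L / (2 * Real.pi) * (y - ord n)) := by ring
    rw [g1]
    refine (abs_add_le _ _).trans ?_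
    have g2 : D * q / (2 * Real.pi) ≤ lm r / (2 * m) := by
      rw [div_le_div_iff₀ (by positivity) (by positivity)]
      have g3 : (D * l) * (q * m) ≤ (8 * Real.pi * (K + 1)) * (q * m) :=
        mul_le_mul_of_nonneg_right hD2 (by positivity)
      have g4 : D * q * (2 * m) * l ≤ lm r * (2 * Real.pi) * l := by
        have g5 : D * q * (2 * m) * l = 2 * ((D * l) * (q * m)) := by ring
        rw [g5]
        have g6 : (8 * Real.pi * (K + 1)) * (q * m) ≤ Real.pi * l := by nlinarith
        have g7 : Real.pi * l ≤ lm r * Real.pi * l := by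
          have : 1 * (Real.pi * l) ≤ lm r * (Real.pi * l) := mul_le_mul_of_nonneg_right h3 (by positivity)
          linarith
        linarith
      exact le_of_mul_le_mul_right g4 (by linarith)
    have g8 : lm r / m = lm r / (2 * m) + lm r / (2 * m) := by field_simp; norm_num
    rw [g8]
    linarith
  rw [← sub_div, abs_div, abs_of_pos hlm0, div_le_iff₀ hlm0]
  refine hfin.trans (le_of_eq ?_)
  ring

lemma rp_top {σ : ℝ} (hσ : 0 < σ) : Tendsto (fun r : ℕ => (r : ℝ) ^ σ) atTop atTop :=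
  (tendsto_rpow_atTop hσ).comp tendsto_natCast_atTop_atTop

lemma lm_mono {a r : ℕ} (ha : 1 ≤ a) (h : a ≤ r) : lm a ≤ lm r := by
  unfold lm
  apply div_le_div_of_nonneg_right _ Real.pi_pos.le
  apply Real.sqrt_le_sqrt
  apply Real.log_le_log
  · exact_mod_cast ha
  · exact_mod_cast h

/-- **tails** -/
lemma tails (σ ε : ℝ) (hσ : 0 < σ) (hε : 0 < ε) : ∃ K : ℝ, 1 ≤ K ∧ ∀ᶠ r : ℕ in atTop, ∀ N : ℕ, 1 ≤ N →
    r * Real.log r ≤ Real.log N → ∀ b : ℕ, b ≤ r → (r : ℝ) ^ σ ≤ b →
    (((Finset.Icc 1 N).filter (fun n => ¬ |(SS b n - b) / lm r| ≤ K)).card : ℝ) ≤ ε * N := by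
  classical
  obtain ⟨K1, hK1⟩ := gs_bot (show 0 < ε / 4 by positivity)
  obtain ⟨K2, hK2⟩ := gs_top (show 0 < ε / 4 by positivity)
  obtain ⟨K, hK⟩ : ∃ K : ℝ, K = max 1 (max K1 K2) := ⟨_, rfl⟩
  have hK0 : 1 ≤ K := by rw [hK]; exact le_max_left _ _
  have hKb : Ph (-K) ≤ ε / 4 := hK1 K (by rw [hK]; exact (le_max_left _ _).trans (le_max_right _ _))
  have hKt : 1 - Ph K ≤ ε / 4 := by
    rw [← gs_compl]
    refine le_trans ?_ (hK2 K (by rw [hK]; exact (le_max_right _ _).trans (le_max_right _ _)))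
    exact MeasureTheory.measureReal_mono Set.Ioi_subset_Ici_self
  refine ⟨K, hK0, ?_⟩
  obtain ⟨b0, hb0⟩ := (Pool.Agent.R320.CL.normal_unif (ε / 4) (by positivity)).exists_forall_of_atTop
  filter_upwards [(rp_top hσ).eventually_ge_atTop ((b0 : ℝ) + 1), JL.lm_top.eventually_ge_atTop 1,
    eventually_ge_atTop 1] with r h1 h2 h3
  intro N hN hrN b hb hbσ
  have hbb : b0 + 1 ≤ b := by exact_mod_cast h1.trans hbσ
  have hb1 : 1 ≤ b := by omega
  have hb1' : (1 : ℝ) ≤ b := by exact_mod_cast hb1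
  have hbr : (b : ℝ) ≤ r := by exact_mod_cast hb
  have hbN : (b : ℝ) * Real.log b ≤ Real.log N := by
    refine le_trans ?_ hrN
    apply mul_le_mul hbr (Real.log_le_log (by linarith) hbr) (Real.log_nonneg hb1') (by linarith)
  have g1 := hb0 b (by omega) N hN hbN
  have g2 := (abs_le.1 (g1 (-K))).2
  have g3 := (abs_le.1 (g1 K)).1
  have hlm0 : 0 < lm r := by linarith
  have hlmm := lm_mono hb1 hb
  have hsub : (Finset.Icc 1 N).filter (fun n => ¬ |(SS b n - b) / lm r| ≤ K) ⊆
      (Finset.Icc 1 N).filter (fun n => Ss (-K) b n) ∪ (Finset.Icc 1 N).filter (fun n => ¬ Ss K b n) := by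
    intro n hn
    rw [Finset.mem_filter] at hn
    rw [Finset.mem_union, Finset.mem_filter, Finset.mem_filter]
    obtain ⟨hn1, hn2⟩ := hn
    rw [not_le, lt_abs] at hn2
    rcases hn2 with h | h
    · right
      refine ⟨hn1, ?_⟩
      unfold Ss
      rw [lt_div_iff₀ hlm0] at h
      nlinarith
    · left
      refine ⟨hn1, ?_⟩
      unfold Ss
      rw [← neg_div, lt_div_iff₀ hlm0] at h
      nlinarith
  have g4 : (((Finset.Icc 1 N).filter (fun n => Ss K b n)).card : ℝ) +
      ((Finset.Icc 1 N).filter (fun n => ¬ Ss K b n)).card = N := by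
    have := Finset.card_filter_add_card_filter_not (s := Finset.Icc 1 N) (fun n => Ss K b n)
    rw [Nat.card_Icc, Nat.add_sub_cancel] at this
    exact_mod_cast this
  have g5 : (((Finset.Icc 1 N).filter (fun n => ¬ |(SS b n - b) / lm r| ≤ K)).card : ℝ) ≤
      ((Finset.Icc 1 N).filter (fun n => Ss (-K) b n)).card + ((Finset.Icc 1 N).filter (fun n => ¬ Ss K b n)).card := by
    exact_mod_cast (Finset.card_le_card hsub).trans (Finset.card_union_le _ _)
  have hN0 : (0 : ℝ) ≤ N := Nat.cast_nonneg _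
  have g6 : Ph (-K) * N ≤ ε / 4 * N := mul_le_mul_of_nonneg_right hKb hN0
  have g7 : (1 - Ph K) * N ≤ ε / 4 * N := mul_le_mul_of_nonneg_right hKt hN0
  linarith

end

end Pool.Agent.R320.PR
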